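import Pool.Agent.Lib_helper29.RO.Defs

/-!
# Block O0: Eichler transformations are products of commutators
-/

set_option autoImplicit false
set_option linter.unusedSectionVars false

namespace Pool.Agent.RO.O0

open Matrix Pool.Agent.RO
open scoped commutatorElement

section

variable {F : Type*} [Field F] {n : Type*} [Fintype n] [DecidableEq n] (B : Matrix n n F)

theorem symm_pair (hB : Bᵀ = B) (x y : n → F) : (x ᵥ* B) ⬝ᵥ y = (y ᵥ* B) ⬝ᵥ x := by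
  rw [← Matrix.dotProduct_mulVec, ← Matrix.vecMul_transpose, hB, dotProduct_comm]

/-- Additivity. -/
theorem eich_mul (h2 : (2 : F) ≠ 0) (hB : Bᵀ = B) (u w w' : n → F)
    (hu : (u ᵥ* B) ⬝ᵥ u = 0) (hw : (u ᵥ* B) ⬝ᵥ w = 0) (hw' : (u ᵥ* B) ⬝ᵥ w' = 0) :
    eich B u w * eich B u w' = eich B u (w + w') := by
  have hwu : (w ᵥ* B) ⬝ᵥ u = 0 := by rw [symm_pair B hB, hw]
  have hwu' : (w' ᵥ* B) ⬝ᵥ u = 0 := by rw [symm_pair B hB, hw']
  set U : Matrix n n F := vecMulVec u (u ᵥ* B) with hU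
  have hNU : (vecMulVec u (w ᵥ* B) - vecMulVec w (u ᵥ* B)) * U = 0 := by
    rw [hU, sub_mul, vecMulVec_mul_vecMulVec, vecMulVec_mul_vecMulVec, hwu, hu, zero_smul,
      vecMulVec_zero, vecMulVec_zero, sub_zero]
  have hUN : U * (vecMulVec u (w' ᵥ* B) - vecMulVec w' (u ᵥ* B)) = 0 := by
    rw [hU, mul_sub, vecMulVec_mul_vecMulVec, vecMulVec_mul_vecMulVec, hw', hu, zero_smul,
      zero_smul, vecMulVec_zero, sub_zero]
  have hUU : U * U = 0 := by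
    rw [hU, vecMulVec_mul_vecMulVec, hu, zero_smul, vecMulVec_zero]
  have hNN : (vecMulVec u (w ᵥ* B) - vecMulVec w (u ᵥ* B)) *
      (vecMulVec u (w' ᵥ* B) - vecMulVec w' (u ᵥ* B)) = -((w ᵥ* B) ⬝ᵥ w') • U := by
    rw [sub_mul, mul_sub, mul_sub, vecMulVec_mul_vecMulVec, vecMulVec_mul_vecMulVec,
      vecMulVec_mul_vecMulVec, vecMulVec_mul_vecMulVec, hwu, hu, hw', hU]
    rw [zero_smul, zero_smul, vecMulVec_zero, vecMulVec_zero, vecMulVec_smul]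
    simp
  have hq : (2 : F)⁻¹ * (((w + w') ᵥ* B) ⬝ᵥ (w + w')) =
      (2 : F)⁻¹ * ((w ᵥ* B) ⬝ᵥ w) + (2 : F)⁻¹ * ((w' ᵥ* B) ⬝ᵥ w') + (w ᵥ* B) ⬝ᵥ w' := by
    rw [Matrix.add_vecMul, add_dotProduct, dotProduct_add, dotProduct_add, symm_pair B hB w' w]
    have h3 : (2 : F)⁻¹ * 2 = 1 := inv_mul_cancel₀ h2
    linear_combination ((w ᵥ* B) ⬝ᵥ w') * h3
  have hN : vecMulVec u ((w + w') ᵥ* B) - vecMulVec (w + w') (u ᵥ* B) =
      (vecMulVec u (w ᵥ* B) - vecMulVec w (u ᵥ* B)) +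
        (vecMulVec u (w' ᵥ* B) - vecMulVec w' (u ᵥ* B)) := by
    rw [Matrix.add_vecMul, vecMulVec_add, add_vecMulVec]
    abel
  unfold eich
  rw [hN, hq, ← hU]
  set N := vecMulVec u (w ᵥ* B) - vecMulVec w (u ᵥ* B)
  set N' := vecMulVec u (w' ᵥ* B) - vecMulVec w' (u ᵥ* B)
  set q := (2 : F)⁻¹ * ((w ᵥ* B) ⬝ᵥ w)
  set q' := (2 : F)⁻¹ * ((w' ᵥ* B) ⬝ᵥ w')
  set r := (w ᵥ* B) ⬝ᵥ w'
  calc (1 + N - q • U) * (1 + N' - q' • U)
      = 1 + (N + N') + N * N' - (q + q') • U - q' • (N * U) - q • (U * N') +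
        (q * q') • (U * U) := by
        simp only [add_mul, sub_mul, mul_add, mul_sub, mul_one, one_mul, smul_mul_assoc,
          mul_smul_comm]
        module
    _ = 1 + (N + N') - (q + q' + r) • U := by
        rw [hNN, hNU, hUN, hUU]
        module

theorem eich_zero (u : n → F) : eich B u 0 = 1 := by
  unfold eich
  simp

theorem eich_neg_left (u w : n → F) : eich B (-u) w = eich B u (-w) := by
  unfold eich
  rw [Matrix.neg_vecMul, vecMulVec_neg, neg_vecMulVec, Matrix.neg_vecMul, neg_vecMulVec,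
    vecMulVec_neg, neg_dotProduct_neg, vecMulVec_neg, neg_vecMulVec, neg_neg]

/-- Eichler transformations as elements of the general linear group. -/
def eu (h2 : (2 : F) ≠ 0) (hB : Bᵀ = B) (u w : n → F) (hu : (u ᵥ* B) ⬝ᵥ u = 0)
    (hw : (u ᵥ* B) ⬝ᵥ w = 0) : GL n F where
  val := eich B u w
  inv := eich B u (-w)
  val_inv := by
    rw [eich_mul B h2 hB u w (-w) hu hw (by rw [dotProduct_neg, hw, neg_zero]), add_neg_cancel,
      eich_zero]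
  inv_val := by
    rw [eich_mul B h2 hB u (-w) w hu (by rw [dotProduct_neg, hw, neg_zero]) hw, neg_add_cancel,
      eich_zero]

theorem tr_vec (hB : Bᵀ = B) (a b : n → F) :
    (vecMulVec a (b ᵥ* B))ᵀ * B = B * vecMulVec b (a ᵥ* B) := by
  rw [Matrix.transpose_vecMulVec, vecMulVec_mul, mul_vecMulVec]
  congr 1
  rw [← Matrix.vecMul_transpose, hB]

theorem eich_tr (hB : Bᵀ = B) (u w : n → F) : (eich B u w)ᵀ * B = B * eich B u (-w) := by
  unfold eich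
  rw [Matrix.transpose_sub, Matrix.transpose_add, Matrix.transpose_sub, Matrix.transpose_smul,
    Matrix.transpose_one, sub_mul, add_mul, sub_mul, one_mul, smul_mul_assoc, tr_vec B hB,
    tr_vec B hB, tr_vec B hB, Matrix.neg_vecMul, vecMulVec_neg, neg_vecMulVec, neg_dotProduct_neg,
    mul_sub, mul_add, mul_sub, mul_one, mul_neg, mul_neg, mul_smul_comm]
  abel

theorem eu_mem (h2 : (2 : F) ≠ 0) (hB : Bᵀ = B) (u w : n → F) (hu : (u ᵥ* B) ⬝ᵥ u = 0)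
    (hw : (u ᵥ* B) ⬝ᵥ w = 0) : eu B h2 hB u w hu hw ∈ isoGroup B := by
  show (eich B u w)ᵀ * B * eich B u w = B
  rw [eich_tr B hB, mul_assoc,
    eich_mul B h2 hB u (-w) w hu (by rw [dotProduct_neg, hw, neg_zero]) hw, neg_add_cancel,
    eich_zero, mul_one]

/-- The negative of the reflection of a vector that is not isotropic. -/
def gx (x : n → F) : Matrix n n F := (2 * ((x ᵥ* B) ⬝ᵥ x)⁻¹) • vecMulVec x (x ᵥ* B) - 1

theorem gx_sq (x : n → F) (hx : (x ᵥ* B) ⬝ᵥ x ≠ 0) : gx B x * gx B x = 1 := by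
  have h1 : vecMulVec x (x ᵥ* B) * vecMulVec x (x ᵥ* B) =
      ((x ᵥ* B) ⬝ᵥ x) • vecMulVec x (x ᵥ* B) := by
    rw [vecMulVec_mul_vecMulVec, vecMulVec_smul]
  unfold gx
  set c := (x ᵥ* B) ⬝ᵥ x
  set R := vecMulVec x (x ᵥ* B)
  have h3 : c⁻¹ * c = 1 := inv_mul_cancel₀ hx
  calc ((2 * c⁻¹) • R - 1) * ((2 * c⁻¹) • R - 1)
      = ((2 * c⁻¹) * (2 * c⁻¹)) • (R * R) - (4 * c⁻¹) • R + 1 := by
        simp only [sub_mul, mul_sub, mul_one, one_mul, smul_mul_assoc, mul_smul_comm]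
        module
    _ = ((2 * c⁻¹) * (2 * c⁻¹) * c - 4 * c⁻¹) • R + 1 := by
        rw [h1]
        module
    _ = 1 := by
        have h4 : (2 * c⁻¹) * (2 * c⁻¹) * c - 4 * c⁻¹ = 0 := by
          linear_combination 4 * c⁻¹ * h3
        rw [h4, zero_smul, zero_add]

def gu (x : n → F) (hx : (x ᵥ* B) ⬝ᵥ x ≠ 0) : GL n F where
  val := gx B x
  inv := gx B x
  val_inv := gx_sq B x hx
  inv_val := gx_sq B x hx

theorem gx_tr (hB : Bᵀ = B) (x : n → F) : (gx B x)ᵀ * B = B * gx B x := by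
  unfold gx
  rw [Matrix.transpose_sub, Matrix.transpose_smul, Matrix.transpose_one, sub_mul, smul_mul_assoc,
    tr_vec B hB, one_mul, mul_sub, mul_smul_comm, mul_one]

theorem gu_mem (hB : Bᵀ = B) (x : n → F) (hx : (x ᵥ* B) ⬝ᵥ x ≠ 0) : gu B x hx ∈ isoGroup B := by
  show (gx B x)ᵀ * B * gx B x = B
  rw [gx_tr B hB, mul_assoc, gx_sq B x hx, mul_one]

theorem gx_vec (x y : n → F) :
    gx B x *ᵥ y = (2 * ((x ᵥ* B) ⬝ᵥ x)⁻¹ * ((x ᵥ* B) ⬝ᵥ y)) • x - y := by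
  unfold gx
  rw [Matrix.sub_mulVec, Matrix.one_mulVec, Matrix.smul_mulVec, vecMulVec_mulVec,
    op_smul_eq_smul, smul_smul]

theorem conj_vec (hB : Bᵀ = B) (x a b : n → F) (hx : (x ᵥ* B) ⬝ᵥ x ≠ 0) :
    gx B x * vecMulVec a (b ᵥ* B) * gx B x =
      vecMulVec (gx B x *ᵥ a) ((gx B x *ᵥ b) ᵥ* B) := by
  rw [mul_vecMulVec, vecMulVec_mul, Matrix.vecMul_vecMul, ← gx_tr B hB, ← Matrix.vecMul_vecMul,
    Matrix.vecMul_transpose]

/-- The commutator. -/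
theorem comm_one (h2 : (2 : F) ≠ 0) (hB : Bᵀ = B) (u x : n → F) (hu : (u ᵥ* B) ⬝ᵥ u = 0)
    (hux : (u ᵥ* B) ⬝ᵥ x = 0) (hx : (x ᵥ* B) ⬝ᵥ x ≠ 0) :
    gx B x * eich B u x * gx B x = eich B u (-x) := by
  have hxu : (x ᵥ* B) ⬝ᵥ u = 0 := by rw [symm_pair B hB, hux]
  have h1 : gx B x *ᵥ u = -u := by
    rw [gx_vec, hxu, mul_zero, zero_smul, zero_sub]
  have h3 : gx B x *ᵥ x = x := by
    rw [gx_vec, mul_assoc, inv_mul_cancel₀ hx, mul_one, two_smul, add_sub_cancel_right]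
  rw [← eich_neg_left]
  unfold eich
  rw [mul_sub, mul_add, mul_sub, sub_mul, add_mul, sub_mul, mul_one, gx_sq B x hx,
    conj_vec B hB x _ _ hx, conj_vec B hB x _ _ hx, mul_smul_comm, smul_mul_assoc,
    conj_vec B hB x _ _ hx, h1, h3]

theorem mem_one (h2 : (2 : F) ≠ 0) (hB : Bᵀ = B) (u x : n → F) (hu : (u ᵥ* B) ⬝ᵥ u = 0)
    (hux : (u ᵥ* B) ⬝ᵥ x = 0) (hx : (x ᵥ* B) ⬝ᵥ x ≠ 0) :
    ∃ A ∈ ⁅isoGroup B, isoGroup B⁆, ((A : GL n F) : Matrix n n F) = eich B u (-x + -x) := by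
  have hux' : (u ᵥ* B) ⬝ᵥ (-x) = 0 := by rw [dotProduct_neg, hux, neg_zero]
  refine ⟨⁅gu B x hx, eu B h2 hB u x hu hux⁆, Subgroup.commutator_mem_commutator
    (gu_mem B hB x hx) (eu_mem B h2 hB u x hu hux), ?_⟩
  rw [← eich_mul B h2 hB u (-x) (-x) hu hux' hux', ← comm_one B h2 hB u x hu hux hx]
  nth_rewrite 2 [comm_one B h2 hB u x hu hux hx]
  rfl

/-- Block O0. -/
theorem eich_mem_pr (h2 : (2 : F) ≠ 0)
    (hB : Bᵀ = B) (hdet : IsUnit B.det) (u w : n → F)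
    (hu : (u ᵥ* B) ⬝ᵥ u = 0) (hw : (u ᵥ* B) ⬝ᵥ w = 0) :
    ∃ A ∈ ⁅isoGroup B, isoGroup B⁆, ((A : GL n F) : Matrix n n F) = eich B u w := by
  -- vectors that are not isotropic
  have hone : ∀ x : n → F, (u ᵥ* B) ⬝ᵥ x = 0 → (x ᵥ* B) ⬝ᵥ x ≠ 0 →
      ∃ A ∈ ⁅isoGroup B, isoGroup B⁆, ((A : GL n F) : Matrix n n F) = eich B u x := by
    intro x hux hx
    have h3 : (2 : F)⁻¹ ≠ 0 := inv_ne_zero h2
    obtain ⟨A, hA, hA2⟩ := mem_one B h2 hB u (-(2 : F)⁻¹ • x) hu (by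
      rw [dotProduct_smul, hux, smul_zero]) (by
      rw [Matrix.smul_vecMul, smul_dotProduct, dotProduct_smul, smul_eq_mul, smul_eq_mul]
      exact mul_ne_zero (neg_ne_zero.2 h3) (mul_ne_zero (neg_ne_zero.2 h3) hx))
    refine ⟨A, hA, ?_⟩
    rw [hA2]
    congr 1
    rw [neg_smul, neg_neg, ← add_smul]
    have h4 : (2 : F)⁻¹ + 2⁻¹ = 1 := by
      rw [← two_mul, mul_inv_cancel₀ h2]
    rw [h4, one_smul]
  have htwo : ∀ x y : n → F, (u ᵥ* B) ⬝ᵥ x = 0 → (x ᵥ* B) ⬝ᵥ x ≠ 0 → (u ᵥ* B) ⬝ᵥ y = 0 →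
      (y ᵥ* B) ⬝ᵥ y ≠ 0 →
      ∃ A ∈ ⁅isoGroup B, isoGroup B⁆, ((A : GL n F) : Matrix n n F) = eich B u (x + y) := by
    intro x y hux hx huy hy
    obtain ⟨A, hA, hA2⟩ := hone x hux hx
    obtain ⟨A', hA', hA2'⟩ := hone y huy hy
    refine ⟨A * A', Subgroup.mul_mem _ hA hA', ?_⟩
    rw [Units.val_mul, hA2, hA2', eich_mul B h2 hB u x y hu hux huy]
  by_cases hww : (w ᵥ* B) ⬝ᵥ w = 0
  swap
  · exact hone w hw hww
  by_cases hex : ∃ x : n → F, (u ᵥ* B) ⬝ᵥ x = 0 ∧ (x ᵥ* B) ⬝ᵥ x ≠ 0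
  · obtain ⟨x, hux, hx⟩ := hex
    have hs : ∀ y z : n → F, ((y + z) ᵥ* B) ⬝ᵥ (y + z) =
        (y ᵥ* B) ⬝ᵥ y + 2 * ((y ᵥ* B) ⬝ᵥ z) + (z ᵥ* B) ⬝ᵥ z := by
      intro y z
      rw [Matrix.add_vecMul, add_dotProduct, dotProduct_add, dotProduct_add, symm_pair B hB z y]
      ring
    have hnn : ((-x) ᵥ* B) ⬝ᵥ (-x) = (x ᵥ* B) ⬝ᵥ x := by
      rw [Matrix.neg_vecMul, neg_dotProduct_neg]
    have hux' : (u ᵥ* B) ⬝ᵥ (-x) = 0 := by rw [dotProduct_neg, hux, neg_zero]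
    by_cases h3 : ((w + x) ᵥ* B) ⬝ᵥ (w + x) = 0
    · have h4 : ((w + -x) ᵥ* B) ⬝ᵥ (w + -x) ≠ 0 := by
        intro h4
        rw [hs, hww] at h3 h4
        rw [dotProduct_neg, hnn] at h4
        have h5 : 2 * ((x ᵥ* B) ⬝ᵥ x) = 0 := by linear_combination h3 + h4
        rcases mul_eq_zero.1 h5 with h5 | h5
        · exact h2 h5
        · exact hx h5
      obtain ⟨A, hA, hA2⟩ := htwo (w + -x) x (by rw [dotProduct_add, hw, hux', add_zero]) h4 hux hx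
      refine ⟨A, hA, ?_⟩
      rw [hA2, neg_add_cancel_right]
    · obtain ⟨A, hA, hA2⟩ := htwo (w + x) (-x) (by rw [dotProduct_add, hw, hux, add_zero]) h3 hux'
        (by rw [hnn]; exact hx)
      refine ⟨A, hA, ?_⟩
      rw [hA2, add_neg_cancel_right]
  · -- the degenerate case
    push Not at hex
    have h3 : ∀ y : n → F, (u ᵥ* B) ⬝ᵥ y = 0 → (w ᵥ* B) ⬝ᵥ y = 0 := by
      intro y hy
      have h4 := hex (w + y) (by rw [dotProduct_add, hw, hy, add_zero])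
      rw [Matrix.add_vecMul, add_dotProduct, dotProduct_add, dotProduct_add, symm_pair B hB y w,
        hww, hex y hy] at h4
      have h5 : 2 * ((w ᵥ* B) ⬝ᵥ y) = 0 := by linear_combination h4
      exact (mul_eq_zero.1 h5).resolve_left h2
    have h4 : ∃ c : F, w ᵥ* B = c • (u ᵥ* B) := by
      by_cases h5 : u ᵥ* B = 0
      · refine ⟨0, ?_⟩
        rw [zero_smul]
        ext i
        have h6 := h3 (Pi.single i 1) (by rw [h5, zero_dotProduct])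
        rwa [dotProduct_single_one] at h6
      · obtain ⟨i, hi⟩ := Function.ne_iff.1 h5
        refine ⟨(w ᵥ* B) i * ((u ᵥ* B) i)⁻¹, ?_⟩
        ext j
        have h6 := h3 (Pi.single j ((u ᵥ* B) i) - Pi.single i ((u ᵥ* B) j)) (by
          rw [dotProduct_sub, dotProduct_single, dotProduct_single]
          ring)
        rw [dotProduct_sub, dotProduct_single, dotProduct_single] at h6
        have h7 : (u ᵥ* B) i ≠ 0 := hi
        rw [Pi.smul_apply, smul_eq_mul]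
        field_simp
        linear_combination h6
    obtain ⟨c, hc⟩ := h4
    have h5 : w = c • u := by
      have h6 : ∀ z : n → F, (z ᵥ* B) ᵥ* B⁻¹ = z := fun z => by
        rw [Matrix.vecMul_vecMul, Matrix.mul_nonsing_inv _ hdet, Matrix.vecMul_one]
      rw [← h6 w, hc, Matrix.smul_vecMul, h6]
    refine ⟨1, Subgroup.one_mem _, ?_⟩
    rw [Units.val_one]
    unfold eich
    rw [hww, mul_zero, zero_smul, sub_zero, hc, h5, vecMulVec_smul, smul_vecMulVec, sub_self,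
      add_zero]

end

end Pool.Agent.RO.O0
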