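import Mathlib

/-!
# Block O4: a Lie algebra of matrices on which all odd power traces vanish preserves a
bilinear form
-/

set_option autoImplicit false

namespace Pool.Agent.RO.O4

open Matrix Finset

set_option linter.unusedSectionVars false

section powers

variable {C : Type*} [Field C] [CharZero C] {B : Type*} [Ring B] [Algebra C B]

theorem coef_mem (P : Submodule C B) (n : ℕ) (b : ℕ → B)
    (h : ∀ t : C, ∑ i ∈ range (n + 1), t ^ i • b i ∈ P) : ∀ i ≤ n, b i ∈ P := by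
  classical
  intro i hi
  rw [← Submodule.Quotient.mk_eq_zero P, ← Module.forall_dual_apply_eq_zero_iff C]
  intro f
  let g : B →ₗ[C] C := f.comp P.mkQ
  have hg : ∀ x ∈ P, g x = 0 := by
    intro x hx
    show f (P.mkQ x) = 0
    rw [Submodule.mkQ_apply, (Submodule.Quotient.mk_eq_zero P).2 hx, map_zero]
  let q : Polynomial C := ∑ i ∈ range (n + 1), Polynomial.C (g (b i)) * Polynomial.X ^ i
  have hq : q = 0 := by
    apply Polynomial.funext
    intro t
    rw [Polynomial.eval_zero, Polynomial.eval_finsetSum]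
    have h1 := hg _ (h t)
    rw [map_sum] at h1
    rw [← h1]
    refine Finset.sum_congr rfl fun i _ => ?_
    rw [Polynomial.eval_mul, Polynomial.eval_C, Polynomial.eval_pow, Polynomial.eval_X, map_smul,
      smul_eq_mul, mul_comm]
  have h2 : q.coeff i = g (b i) := by
    show (∑ i ∈ range (n + 1), Polynomial.C (g (b i)) * Polynomial.X ^ i).coeff i = _
    rw [Polynomial.finsetSum_coeff]
    simp only [Polynomial.coeff_C_mul_X_pow]
    rw [Finset.sum_ite_eq (range (n + 1)) i (fun i => g (b i)), if_pos]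
    exact Finset.mem_range.2 (Nat.lt_succ_of_le hi)
  rw [hq, Polynomial.coeff_zero] at h2
  exact h2.symm

theorem pow_expand (y z : B) (n : ℕ) : ∃ b : ℕ → B,
    (∀ t : C, (y + t • z) ^ n = ∑ i ∈ range (n + 1), t ^ i • b i) ∧ b 0 = y ^ n ∧
      (∀ i, n < i → b i = 0) ∧ b 1 = ∑ i ∈ range n, y ^ i * z * y ^ (n - 1 - i) := by
  induction n with
  | zero =>
    refine ⟨fun i => if i = 0 then 1 else 0, fun t => by simp, by simp, fun i hi => ?_, by simp⟩
    exact if_neg (by omega)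
  | succ n ih =>
    obtain ⟨b, hb, hb0, hbn, hb1⟩ := ih
    obtain ⟨b', hb'0, hb's⟩ : ∃ b' : ℕ → B, b' 0 = b 0 * y ∧
        ∀ i, b' (i + 1) = b (i + 1) * y + b i * z :=
      ⟨fun i => if i = 0 then b 0 * y else b i * y + b (i - 1) * z, if_pos rfl,
        fun i => if_neg (Nat.succ_ne_zero i)⟩
    refine ⟨b', fun t => ?_, ?_, ?_, ?_⟩
    · rw [pow_succ, hb, Finset.sum_range_succ' _ (n + 1)]
      have h1 : ∑ k ∈ range (n + 1), t ^ (k + 1) • b' (k + 1) =
          (∑ k ∈ range (n + 1), t ^ (k + 1) • (b (k + 1) * y)) +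
            ∑ k ∈ range (n + 1), t ^ (k + 1) • (b k * z) := by
        rw [← Finset.sum_add_distrib]
        refine Finset.sum_congr rfl fun k _ => ?_
        rw [hb's, smul_add]
      rw [h1, hb'0, pow_zero, one_smul, mul_add, Finset.sum_mul, Finset.sum_mul]
      have h2 : ∑ k ∈ range (n + 1), t ^ (k + 1) • (b (k + 1) * y) =
          ∑ k ∈ range n, t ^ (k + 1) • (b (k + 1) * y) := by
        rw [Finset.sum_range_succ, hbn (n + 1) (Nat.lt_succ_self n), zero_mul, smul_zero, add_zero]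
      have h3 : ∑ k ∈ range (n + 1), t ^ k • b k * y =
          ∑ k ∈ range n, t ^ (k + 1) • (b (k + 1) * y) + b 0 * y := by
        rw [Finset.sum_range_succ' _ n, pow_zero, one_smul]
        congr 1
        exact Finset.sum_congr rfl fun k _ => smul_mul_assoc _ _ _
      have h4 : ∑ k ∈ range (n + 1), t ^ k • b k * (t • z) =
          ∑ k ∈ range (n + 1), t ^ (k + 1) • (b k * z) := by
        refine Finset.sum_congr rfl fun k _ => ?_
        rw [smul_mul_assoc, mul_smul_comm, smul_smul, ← pow_succ]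
      rw [h2, h3, h4]
      abel
    · rw [hb'0, hb0, pow_succ]
    · intro i hi
      obtain ⟨i, rfl⟩ : ∃ i', i = i' + 1 := ⟨i - 1, by omega⟩
      rw [hb's, hbn (i + 1) (by omega), hbn i (by omega), zero_mul, zero_mul, add_zero]
    · have h5 : b' 1 = b 1 * y + b 0 * z := hb's 0
      rw [h5, hb0, hb1, Finset.sum_range_succ, Finset.sum_mul]
      congr 1
      · refine Finset.sum_congr rfl fun i hi => ?_
        have hi' := Finset.mem_range.1 hi
        rw [mul_assoc, ← pow_succ]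
        congr 2
        omega
      · rw [Nat.add_sub_cancel, Nat.sub_self, pow_zero, mul_one]

/-- The space spanned by the powers. -/
def Pw (𝔏 : Submodule C B) (k : ℕ) : Submodule C B :=
  Submodule.span C {x | ∃ y ∈ 𝔏, ∃ j ≤ k, x = y ^ j}

theorem Pw_mono (𝔏 : Submodule C B) {k l : ℕ} (h : k ≤ l) : Pw 𝔏 k ≤ Pw 𝔏 l := by
  apply Submodule.span_mono
  rintro x ⟨y, hy, j, hj, rfl⟩
  exact ⟨y, hy, j, hj.trans h, rfl⟩

theorem pow_mem_Pw (𝔏 : Submodule C B) {y : B} (hy : y ∈ 𝔏) (k : ℕ) : y ^ k ∈ Pw 𝔏 k :=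
  Submodule.subset_span ⟨y, hy, k, le_rfl, rfl⟩

theorem mid_mem (𝔏 : Submodule C B) (hbr : ∀ x ∈ 𝔏, ∀ y ∈ 𝔏, x * y - y * x ∈ 𝔏) (k : ℕ) :
    ∀ y ∈ 𝔏, ∀ z ∈ 𝔏, ∀ a b : ℕ, a + b = k → y ^ a * z * y ^ b ∈ Pw 𝔏 (k + 1) := by
  induction k with
  | zero =>
    intro y hy z hz a b hab
    have ha : a = 0 := by omega
    have hb : b = 0 := by omega
    rw [ha, hb, pow_zero, one_mul, mul_one]
    have := pow_mem_Pw 𝔏 hz 1
    rwa [pow_one] at this
  | succ k ih =>
    intro y hy z hz a b hab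
    -- the difference with the first one
    have hdiff : ∀ i ≤ k + 1, y ^ i * z * y ^ (k + 1 - i) - z * y ^ (k + 1) ∈ Pw 𝔏 (k + 1) := by
      intro i
      induction i with
      | zero =>
        intro _
        rw [pow_zero, one_mul, Nat.sub_zero, sub_self]
        exact Submodule.zero_mem _
      | succ i ih2 =>
        intro hi
        have h1 := ih2 (by omega)
        have h2 := ih y hy (y * z - z * y) (hbr y hy z hz) i (k - i) (by omega)
        have h3 : y ^ (i + 1) * z * y ^ (k + 1 - (i + 1)) - z * y ^ (k + 1) =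
            (y ^ i * z * y ^ (k + 1 - i) - z * y ^ (k + 1)) +
              y ^ i * (y * z - z * y) * y ^ (k - i) := by
          have h4 : k + 1 - (i + 1) = k - i := by omega
          have h5 : k + 1 - i = (k - i) + 1 := by omega
          rw [h4, h5, pow_succ' y (k - i), pow_succ y i]
          noncomm_ring
        rw [h3]
        exact Submodule.add_mem _ h1 h2
    obtain ⟨c, hc, -, -, hc1⟩ := pow_expand (C := C) y z (k + 2)
    have h1 : c 1 ∈ Pw 𝔏 (k + 2) := by
      refine coef_mem (Pw 𝔏 (k + 2)) (k + 2) c (fun t => ?_) 1 (by omega)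
      rw [← hc]
      exact pow_mem_Pw 𝔏 (𝔏.add_mem hy (𝔏.smul_mem t hz)) (k + 2)
    have h2 : c 1 - ((k + 2 : ℕ) : C) • (z * y ^ (k + 1)) ∈ Pw 𝔏 (k + 1) := by
      have h3 : c 1 - ((k + 2 : ℕ) : C) • (z * y ^ (k + 1)) =
          ∑ i ∈ range (k + 2), (y ^ i * z * y ^ (k + 1 - i) - z * y ^ (k + 1)) := by
        rw [Finset.sum_sub_distrib, Finset.sum_const, Finset.card_range, hc1, Nat.cast_smul_eq_nsmul]
        rfl
      rw [h3]
      refine Submodule.sum_mem _ fun i hi => hdiff i ?_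
      have := Finset.mem_range.1 hi
      omega
    have h3 : z * y ^ (k + 1) ∈ Pw 𝔏 (k + 2) := by
      have h4 : ((k + 2 : ℕ) : C) • (z * y ^ (k + 1)) ∈ Pw 𝔏 (k + 2) := by
        have h5 : ((k + 2 : ℕ) : C) • (z * y ^ (k + 1)) =
            c 1 - (c 1 - ((k + 2 : ℕ) : C) • (z * y ^ (k + 1))) := by abel
        rw [h5]
        exact Submodule.sub_mem _ h1 (Pw_mono 𝔏 (by omega) h2)
      have h6 : ((k + 2 : ℕ) : C) ≠ 0 := Nat.cast_ne_zero.2 (by omega)
      have h7 := (Pw 𝔏 (k + 2)).smul_mem (((k + 2 : ℕ) : C)⁻¹) h4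
      rwa [smul_smul, inv_mul_cancel₀ h6, one_smul] at h7
    have h4 := hdiff a (by omega)
    have h5 : k + 1 - a = b := by omega
    rw [h5] at h4
    have h6 : y ^ a * z * y ^ b = (y ^ a * z * y ^ b - z * y ^ (k + 1)) + z * y ^ (k + 1) := by
      abel
    rw [h6]
    exact Submodule.add_mem _ (Pw_mono 𝔏 (by omega) h4) h3

/-- The algebra generated by a Lie algebra is spanned by powers. -/
theorem adjoin_powers (𝔏 : Submodule C B) (hbr : ∀ x ∈ 𝔏, ∀ y ∈ 𝔏, x * y - y * x ∈ 𝔏) :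
    ∀ x ∈ Algebra.adjoin C (𝔏 : Set B), x ∈ Submodule.span C {x | ∃ y ∈ 𝔏, ∃ j : ℕ, x = y ^ j} := by
  set P := Submodule.span C {x | ∃ y ∈ 𝔏, ∃ j : ℕ, x = y ^ j} with hP
  have hle : ∀ k, Pw 𝔏 k ≤ P := by
    intro k
    apply Submodule.span_mono
    rintro x ⟨y, hy, j, -, rfl⟩
    exact ⟨y, hy, j, rfl⟩
  have hmul : ∀ z ∈ 𝔏, ∀ x ∈ P, z * x ∈ P := by
    intro z hz x hx
    rw [hP] at hx
    induction hx using Submodule.span_induction with
    | mem x hx =>
      obtain ⟨y, hy, j, rfl⟩ := hx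
      have h1 := mid_mem 𝔏 hbr j y hy z hz 0 j (by omega)
      rw [pow_zero, one_mul] at h1
      exact hle _ h1
    | zero =>
      rw [mul_zero]
      exact Submodule.zero_mem _
    | add x y _ _ hx hy =>
      rw [mul_add]
      exact Submodule.add_mem _ hx hy
    | smul c x _ hx =>
      rw [mul_smul_comm]
      exact Submodule.smul_mem _ _ hx
  have hall : ∀ x ∈ Algebra.adjoin C (𝔏 : Set B), ∀ y ∈ P, x * y ∈ P := by
    intro x hx
    induction hx using Algebra.adjoin_induction with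
    | mem x hx => exact hmul x hx
    | algebraMap c =>
      intro y hy
      rw [Algebra.algebraMap_eq_smul_one, smul_mul_assoc, one_mul]
      exact Submodule.smul_mem _ _ hy
    | add x x' _ _ hx hx' =>
      intro y hy
      rw [add_mul]
      exact Submodule.add_mem _ (hx y hy) (hx' y hy)
    | mul x x' _ _ hx hx' =>
      intro y hy
      rw [mul_assoc]
      exact hx _ (hx' y hy)
  intro x hx
  have h1 := hall x hx 1 (Submodule.subset_span ⟨0, 𝔏.zero_mem, 0, (pow_zero 0).symm⟩)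
  rwa [mul_one] at h1

end powers

section form

variable {C : Type*} [Field C] [CharZero C] {D : ℕ}

/-- Block O4. -/
theorem exists_form_pr
    (L : Submodule C (Matrix (Fin D) (Fin D) C)) (hbr : ∀ x ∈ L, ∀ y ∈ L, x * y - y * x ∈ L)
    (htop : Algebra.adjoin C (L : Set (Matrix (Fin D) (Fin D) C)) = ⊤)
    (hodd : ∀ x ∈ L, ∀ m : ℕ, Odd m → (x ^ m).trace = 0) :
    ∃ J : Matrix (Fin D) (Fin D) C, IsUnit J.det ∧ ∀ x ∈ L, xᵀ * J = -(J * x) := by
  classical
  let M := Matrix (Fin D) (Fin D) C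
  let ι : M →ₗ[C] M × M :=
    { toFun := fun x => (x, -xᵀ)
      map_add' := fun x y => by
        rw [Matrix.transpose_add, neg_add]
        rfl
      map_smul' := fun c x => by
        rw [Matrix.transpose_smul, ← smul_neg]
        rfl }
  have hι : ∀ x, ι x = (x, -xᵀ) := fun _ => rfl
  let 𝔏 : Submodule C (M × M) := L.map ι
  have hbr' : ∀ x ∈ 𝔏, ∀ y ∈ 𝔏, x * y - y * x ∈ 𝔏 := by
    rintro _ ⟨x, hx, rfl⟩ _ ⟨y, hy, rfl⟩
    refine ⟨x * y - y * x, hbr x hx y hy, ?_⟩
    rw [hι, hι, hι]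
    refine Prod.ext rfl ?_
    show -(x * y - y * x)ᵀ = -xᵀ * -yᵀ - -yᵀ * -xᵀ
    rw [Matrix.transpose_sub, Matrix.transpose_mul, Matrix.transpose_mul, neg_mul_neg, neg_mul_neg]
    abel
  -- traces agree on the algebra generated by `𝔏`
  set 𝓑 := Algebra.adjoin C (𝔏 : Set (M × M)) with h𝓑
  have hspan : ∀ b ∈ Submodule.span C {x : M × M | ∃ y ∈ 𝔏, ∃ j : ℕ, x = y ^ j},
      Matrix.trace b.1 = Matrix.trace b.2 := by
    intro b hb
    induction hb using Submodule.span_induction with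
    | mem x hx =>
      obtain ⟨_, ⟨y, hy, rfl⟩, j, rfl⟩ := hx
      rw [hι]
      show (y ^ j).trace = ((-yᵀ) ^ j).trace
      rcases Nat.even_or_odd j with hj | hj
      · rw [hj.neg_pow, ← Matrix.transpose_pow, Matrix.trace_transpose]
      · rw [hj.neg_pow, Matrix.trace_neg, ← Matrix.transpose_pow, Matrix.trace_transpose,
          hodd y hy j hj, neg_zero]
    | zero => rfl
    | add x y _ _ hx hy =>
      show Matrix.trace (x.1 + y.1) = Matrix.trace (x.2 + y.2)
      rw [Matrix.trace_add, Matrix.trace_add, hx, hy]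
    | smul c x _ hx =>
      show Matrix.trace (c • x.1) = Matrix.trace (c • x.2)
      rw [Matrix.trace_smul, Matrix.trace_smul, hx]
  have htr : ∀ b ∈ 𝓑, Matrix.trace b.1 = Matrix.trace b.2 :=
    fun b hb => hspan b (adjoin_powers 𝔏 hbr' b hb)
  -- the projections are onto
  have h1 : ∀ u : M, ∃ v : M, (u, v) ∈ 𝓑 := by
    intro u
    have hu : u ∈ Algebra.adjoin C (L : Set M) := by
      rw [htop]
      exact Algebra.mem_top
    induction hu using Algebra.adjoin_induction with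
    | mem x hx => exact ⟨-xᵀ, Algebra.subset_adjoin ⟨x, hx, rfl⟩⟩
    | algebraMap c => exact ⟨algebraMap C M c, Subalgebra.algebraMap_mem 𝓑 c⟩
    | add x y _ _ hx hy =>
      obtain ⟨v, hv⟩ := hx
      obtain ⟨w, hw⟩ := hy
      exact ⟨v + w, Subalgebra.add_mem 𝓑 hv hw⟩
    | mul x y _ _ hx hy =>
      obtain ⟨v, hv⟩ := hx
      obtain ⟨w, hw⟩ := hy
      exact ⟨v * w, Subalgebra.mul_mem 𝓑 hv hw⟩
  have h2 : ∀ u : M, ∃ v : M, (v, uᵀ) ∈ 𝓑 := by
    intro u
    have hu : u ∈ Algebra.adjoin C (L : Set M) := by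
      rw [htop]
      exact Algebra.mem_top
    induction hu using Algebra.adjoin_induction with
    | mem x hx =>
      refine ⟨-x, ?_⟩
      have h3 := Subalgebra.neg_mem 𝓑 (Algebra.subset_adjoin (s := (𝔏 : Set (M × M))) ⟨x, hx, rfl⟩)
      have h4 : -(ι x) = (-x, xᵀ) := by
        rw [hι]
        exact Prod.ext rfl (neg_neg _)
      rwa [h4] at h3
    | algebraMap c =>
      refine ⟨algebraMap C M c, ?_⟩
      have h3 : (algebraMap C M c)ᵀ = algebraMap C M c := by
        rw [Algebra.algebraMap_eq_smul_one, Matrix.transpose_smul, Matrix.transpose_one]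
      rw [h3]
      exact Subalgebra.algebraMap_mem 𝓑 c
    | add x y _ _ hx hy =>
      obtain ⟨v, hv⟩ := hx
      obtain ⟨w, hw⟩ := hy
      refine ⟨v + w, ?_⟩
      rw [Matrix.transpose_add]
      exact Subalgebra.add_mem 𝓑 hv hw
    | mul x y _ _ hx hy =>
      obtain ⟨v, hv⟩ := hx
      obtain ⟨w, hw⟩ := hy
      refine ⟨w * v, ?_⟩
      rw [Matrix.transpose_mul]
      exact Subalgebra.mul_mem 𝓑 hw hv
  have h2' : ∀ u : M, ∃ v : M, (v, u) ∈ 𝓑 := by
    intro u
    obtain ⟨v, hv⟩ := h2 uᵀ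
    rw [Matrix.transpose_transpose] at hv
    exact ⟨v, hv⟩
  -- nondegenerate trace form
  have hnd : ∀ u : M, (∀ v : M, Matrix.trace (u * v) = 0) → u = 0 := by
    intro u hu
    ext i j
    have h3 := hu (Matrix.single j i 1)
    rw [Matrix.trace_mul_single, MulOpposite.op_one, one_smul] at h3
    exact h3
  have hi1 : ∀ v : M, (0, v) ∈ 𝓑 → v = 0 := by
    intro v hv
    apply hnd
    intro w
    obtain ⟨w', hw'⟩ := h2' w
    have h3 := htr _ (Subalgebra.mul_mem 𝓑 hv hw')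
    have h4 : Matrix.trace ((0 : M) * w') = Matrix.trace (v * w) := h3
    rw [← h4, zero_mul, Matrix.trace_zero]
  have hi2 : ∀ v : M, (v, 0) ∈ 𝓑 → v = 0 := by
    intro v hv
    apply hnd
    intro w
    obtain ⟨w', hw'⟩ := h1 w
    have h3 := htr _ (Subalgebra.mul_mem 𝓑 hv hw')
    have h4 : Matrix.trace (v * w) = Matrix.trace ((0 : M) * w') := h3
    rw [h4, zero_mul, Matrix.trace_zero]
  let f1 : 𝓑 →ₐ[C] M := (AlgHom.fst C M M).comp 𝓑.val
  let f2 : 𝓑 →ₐ[C] M := (AlgHom.snd C M M).comp 𝓑.val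
  have hf1 : Function.Bijective f1 := by
    refine ⟨(injective_iff_map_eq_zero f1).2 ?_, fun u => ?_⟩
    · rintro ⟨⟨a, b⟩, hab⟩ h
      have h3 : a = 0 := h
      subst h3
      have h4 := hi1 b hab
      subst h4
      rfl
    · obtain ⟨v, hv⟩ := h1 u
      exact ⟨⟨(u, v), hv⟩, rfl⟩
  have hf2 : Function.Bijective f2 := by
    refine ⟨(injective_iff_map_eq_zero f2).2 ?_, fun u => ?_⟩
    · rintro ⟨⟨a, b⟩, hab⟩ h
      have h3 : b = 0 := h
      subst h3
      have h4 := hi2 a hab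
      subst h4
      rfl
    · obtain ⟨v, hv⟩ := h2' u
      exact ⟨⟨(v, u), hv⟩, rfl⟩
  let θ : M ≃ₐ[C] M := (AlgEquiv.ofBijective f1 hf1).symm.trans (AlgEquiv.ofBijective f2 hf2)
  have hθ : ∀ x ∈ L, θ x = -xᵀ := by
    intro x hx
    have h3 : (x, -xᵀ) ∈ 𝓑 := Algebra.subset_adjoin ⟨x, hx, rfl⟩
    have h4 : (AlgEquiv.ofBijective f1 hf1).symm x = ⟨(x, -xᵀ), h3⟩ := by
      rw [AlgEquiv.symm_apply_eq]
      rfl
    show (AlgEquiv.ofBijective f2 hf2) ((AlgEquiv.ofBijective f1 hf1).symm x) = _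
    rw [h4]
    rfl
  let Θ : Module.End C (Fin D → C) ≃ₐ[C] Module.End C (Fin D → C) :=
    (Matrix.toLinAlgEquiv'.symm.trans θ).trans Matrix.toLinAlgEquiv'
  obtain ⟨T, hT⟩ := Θ.eq_linearEquivConjAlgEquiv
  have hT' : ∀ x ∈ L, ∀ v, T (x *ᵥ v) = (-xᵀ) *ᵥ (T v) := by
    intro x hx v
    have h3 : Θ (Matrix.toLinAlgEquiv' x) = Matrix.toLinAlgEquiv' (-xᵀ) := by
      show Matrix.toLinAlgEquiv' (θ (Matrix.toLinAlgEquiv'.symm (Matrix.toLinAlgEquiv' x))) = _
      rw [AlgEquiv.symm_apply_apply, hθ x hx]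
    rw [hT] at h3
    have h4 := LinearMap.congr_fun h3 (T v)
    rw [LinearEquiv.conjAlgEquiv_apply] at h4
    simp only [LinearMap.comp_apply, LinearEquiv.coe_coe, LinearEquiv.symm_apply_apply,
      Matrix.toLinAlgEquiv'_apply] at h4
    exact h4
  refine ⟨LinearMap.toMatrix' T.toLinearMap, ?_, ?_⟩
  · rw [LinearMap.det_toMatrix']
    exact LinearEquiv.isUnit_det' T
  · intro x hx
    apply Matrix.toLin'.injective
    apply LinearMap.ext
    intro v
    have h3 : ∀ w, (LinearMap.toMatrix' T.toLinearMap) *ᵥ w = T w := fun w =>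
      LinearMap.toMatrix'_mulVec T.toLinearMap w
    rw [Matrix.toLin'_apply, Matrix.toLin'_apply, ← Matrix.mulVec_mulVec, h3, Matrix.neg_mulVec,
      ← Matrix.mulVec_mulVec, h3, hT' x hx, Matrix.neg_mulVec, neg_neg]

end form

end Pool.Agent.RO.O4
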