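import Mathlib

/-!
# Block O5: the orthogonal Lie algebra generates all matrices
-/

set_option autoImplicit false

namespace Pool.Agent.RO.O5

open Matrix

/-- Block O5. -/
theorem so_alg_pr {k : Type*} [Field k] (h2 : (2 : k) ≠ 0) {n : Type*} [Fintype n] [DecidableEq n]
    (hn : 3 ≤ Fintype.card n) (B : Matrix n n k) (hB : Bᵀ = B) (hdet : IsUnit B.det)
    (W : Submodule k (Matrix n n k))
    (hW : ∀ a b : n → k, vecMulVec a (b ᵥ* B) - vecMulVec b (a ᵥ* B) ∈ W)
    (hmul : ∀ x ∈ W, ∀ y ∈ W, x * y ∈ W) : W = ⊤ := by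
  classical
  have : Invertible (2 : k) := invertibleOfNonzero h2
  set β : LinearMap.BilinForm k (n → k) := Matrix.toBilin' B with hβ
  have hβa : ∀ x y, β x y = (x ᵥ* B) ⬝ᵥ y := by
    intro x y
    rw [hβ, Matrix.toBilin'_apply', Matrix.dotProduct_mulVec]
  have hsymm : LinearMap.IsSymm β := by
    refine ⟨fun x y => ?_⟩
    rw [RingHom.id_apply, hβ, Matrix.toBilin'_apply', Matrix.toBilin'_apply', dotProduct_comm,
      ← Matrix.vecMul_transpose, hB, ← Matrix.dotProduct_mulVec, dotProduct_comm]
  obtain ⟨v, hv⟩ := LinearMap.BilinForm.exists_orthogonal_basis hsymm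
  have hr : Module.finrank k (n → k) = Fintype.card n := Module.finrank_fintype_fun_eq_card k
  have horth : ∀ i j, i ≠ j → (v i ᵥ* B) ⬝ᵥ v j = 0 := by
    intro i j hij
    rw [← hβa]
    exact hv hij
  have hself : ∀ i, (v i ᵥ* B) ⬝ᵥ v i ≠ 0 := by
    intro i hi
    have h1 : ∀ y, (v i ᵥ* B) ⬝ᵥ y = 0 := by
      intro y
      have hy : y ∈ Submodule.span k (Set.range v) := by
        rw [v.span_eq]
        exact Submodule.mem_top
      induction hy using Submodule.span_induction with
      | mem y hy =>
        obtain ⟨j, rfl⟩ := hy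
        by_cases hij : i = j
        · rw [← hij, hi]
        · exact horth i j hij
      | zero => exact dotProduct_zero _
      | add y z _ _ hy hz => rw [dotProduct_add, hy, hz, add_zero]
      | smul c y _ hy => rw [dotProduct_smul, hy, smul_zero]
    have h3 : v i ᵥ* B = 0 := by
      ext l
      have := h1 (Pi.single l 1)
      rwa [dotProduct_single_one] at this
    have h4 : v i = 0 := by
      have h5 : (v i ᵥ* B) ᵥ* B⁻¹ = v i := by
        rw [Matrix.vecMul_vecMul, Matrix.mul_nonsing_inv _ hdet, Matrix.vecMul_one]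
      rw [← h5, h3, Matrix.zero_vecMul]
    exact v.ne_zero i h4
  -- the off-diagonal matrices
  have hoff : ∀ i j, i ≠ j → vecMulVec (v i) (v j ᵥ* B) ∈ W := by
    intro i j hij
    obtain ⟨l, hli, hlj⟩ : ∃ l, l ≠ i ∧ l ≠ j := by
      have hc : (({i, j} : Finset (Fin (Module.finrank k (n → k)))).card) <
          Fintype.card (Fin (Module.finrank k (n → k))) := by
        have hc' : Fintype.card (Fin (Module.finrank k (n → k))) = Fintype.card n := by
          rw [Fintype.card_fin, hr]
        have hc2 : (({i, j} : Finset (Fin (Module.finrank k (n → k)))).card) ≤ 2 :=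
          Finset.card_le_two
        omega
      obtain ⟨l, hl⟩ : ∃ l, l ∉ ({i, j} : Finset (Fin (Module.finrank k (n → k)))) := by
        by_contra hcon
        push Not at hcon
        have h5 : ({i, j} : Finset (Fin (Module.finrank k (n → k)))) = Finset.univ :=
          Finset.eq_univ_iff_forall.2 hcon
        rw [h5, Finset.card_univ] at hc
        exact lt_irrefl _ hc
      rw [Finset.mem_insert, Finset.mem_singleton, not_or] at hl
      exact ⟨l, hl.1, hl.2⟩
    have h1 := hmul _ (hW (v i) (v l)) _ (hW (v l) (v j))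
    rw [sub_mul, mul_sub, mul_sub, vecMulVec_mul_vecMulVec, vecMulVec_mul_vecMulVec,
      vecMulVec_mul_vecMulVec, vecMulVec_mul_vecMulVec, horth l j hlj, horth i l (Ne.symm hli),
      horth i j hij] at h1
    simp only [zero_smul, vecMulVec_zero, sub_zero, vecMulVec_smul] at h1
    have h2 := W.smul_mem (((v l ᵥ* B) ⬝ᵥ v l)⁻¹) h1
    rwa [smul_smul, inv_mul_cancel₀ (hself l), one_smul] at h2
  have hall : ∀ i j, vecMulVec (v i) (v j ᵥ* B) ∈ W := by
    intro i j
    by_cases hij : i = j
    · subst hij
      obtain ⟨l, hl⟩ : ∃ l, l ≠ i := by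
        have hc : 1 < Fintype.card (Fin (Module.finrank k (n → k))) := by
          rw [Fintype.card_fin, hr]
          omega
        exact Fintype.exists_ne_of_one_lt_card hc i
      have h1 := hmul _ (hoff i l (Ne.symm hl)) _ (hoff l i hl)
      rw [vecMulVec_mul_vecMulVec, vecMulVec_smul] at h1
      have h2 := W.smul_mem (((v l ᵥ* B) ⬝ᵥ v l)⁻¹) h1
      rwa [smul_smul, inv_mul_cancel₀ (hself l), one_smul] at h2
    · exact hoff i j hij
  -- all rank one matrices
  have hone : ∀ u w : n → k, vecMulVec u (w ᵥ* B) ∈ W := by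
    intro u w
    have hu : u ∈ Submodule.span k (Set.range v) := by
      rw [v.span_eq]
      exact Submodule.mem_top
    induction hu using Submodule.span_induction with
    | mem u hu =>
      obtain ⟨i, rfl⟩ := hu
      have hw : w ∈ Submodule.span k (Set.range v) := by
        rw [v.span_eq]
        exact Submodule.mem_top
      induction hw using Submodule.span_induction with
      | mem w hw =>
        obtain ⟨j, rfl⟩ := hw
        exact hall i j
      | zero =>
        rw [Matrix.zero_vecMul, vecMulVec_zero]
        exact Submodule.zero_mem _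
      | add y z _ _ hy hz =>
        rw [Matrix.add_vecMul, vecMulVec_add]
        exact Submodule.add_mem _ hy hz
      | smul c y _ hy =>
        rw [Matrix.smul_vecMul, vecMulVec_smul]
        exact Submodule.smul_mem _ _ hy
    | zero =>
      rw [zero_vecMulVec]
      exact Submodule.zero_mem _
    | add y z _ _ hy hz =>
      rw [add_vecMulVec]
      exact Submodule.add_mem _ hy hz
    | smul c y _ hy =>
      rw [smul_vecMulVec]
      exact Submodule.smul_mem _ _ hy
  rw [eq_top_iff]
  intro X _
  rw [Matrix.matrix_eq_sum_single X]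
  refine Submodule.sum_mem _ fun i _ => Submodule.sum_mem _ fun j _ => ?_
  have h1 := W.smul_mem (X i j) (hone (Pi.single i 1) ((Pi.single j (1 : k)) ᵥ* B⁻¹))
  rw [Matrix.vecMul_vecMul, Matrix.nonsing_inv_mul _ hdet, Matrix.vecMul_one] at h1
  have h2 : X i j • vecMulVec (Pi.single i (1 : k)) (Pi.single j (1 : k)) =
      Matrix.single i j (X i j) := by
    rw [← Matrix.single_eq_single_vecMulVec_single, Matrix.smul_single, smul_eq_mul, mul_one]
  rwa [h2] at h1

end Pool.Agent.RO.O5
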