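import Pool.Agent.Lib_helper28.RO.O1
import Pool.Agent.Lib_helper33.RO.O2
import Pool.Agent.Lib_helper29.RO.O0
import Pool.Agent.Lib_helper29.RO.O4
import Pool.Agent.Lib_helper29.RO.O5

/-!
# Blocks O0, O1, O2, O5, O4
-/

set_option autoImplicit false

namespace Pool.Agent.RO

open Matrix

/-- Block O0: Eichler transformations are commutators. -/
theorem eich_mem {F : Type*} [Field F] {n : Type*} [Fintype n] [DecidableEq n] (h2 : (2 : F) ≠ 0)
    (B : Matrix n n F) (hB : Bᵀ = B) (hdet : IsUnit B.det) (u w : n → F)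
    (hu : (u ᵥ* B) ⬝ᵥ u = 0) (hw : (u ᵥ* B) ⬝ᵥ w = 0) :
    ∃ A ∈ ⁅isoGroup B, isoGroup B⁆, ((A : GL n F) : Matrix n n F) = eich B u w :=
  O0.eich_mem_pr B h2 hB hdet u w hu hw

/-- Block O1: spaces of matrices closed under brackets and stable under Eichler
transformations. -/
theorem so_mem {F : Type*} [Field F] {k : Type*} [Field k] [IsAlgClosed k] [Algebra F k] {p : ℕ}
    [Fact p.Prime] [CharP k p] (hp : 5 ≤ p) {n : Type*} [Fintype n] [DecidableEq n]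
    (hn : 5 ≤ Fintype.card n) (B : Matrix n n F) (hB : Bᵀ = B) (hdet : IsUnit B.det)
    (hiso : ∃ u : n → F, u ≠ 0 ∧ (u ᵥ* B) ⬝ᵥ u = 0) (W : Submodule k (Matrix n n k))
    (hbr : ∀ x ∈ W, ∀ y ∈ W, x * y - y * x ∈ W)
    (hW : ∀ u w : n → F, (u ᵥ* B) ⬝ᵥ u = 0 → (u ᵥ* B) ⬝ᵥ w = 0 → ∀ Y ∈ W,
      (eich B u w).map (algebraMap F k) * Y * (eich B u (-w)).map (algebraMap F k) ∈ W)
    {X : Matrix n n k} (hX : X ∈ W) (hXs : ∀ l : k, X ≠ l • 1) (a b : n → k) :
    vecMulVec a (b ᵥ* B.map (algebraMap F k)) - vecMulVec b (a ᵥ* B.map (algebraMap F k)) ∈ W :=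
  so_mem_pr hp hn B hB hdet hiso W hbr hW hX hXs a b

/-- Block O2: a generic element of the orthogonal Lie algebra and the root vectors. -/
theorem so_frame {k : Type*} [Field k] [IsAlgClosed k] {p : ℕ} [Fact p.Prime] [CharP k p]
    (hp : 5 ≤ p) [Infinite k] {n : Type} [Fintype n] [DecidableEq n] (hn : 5 ≤ Fintype.card n)
    (B : Matrix n n k) (hB : Bᵀ = B) (hdet : IsUnit B.det) :
    ∃ (ι : Type) (_ : Fintype ι) (_ : DecidableEq ι) (s : ι → ι) (R : Matrix n ι k)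
      (R' : Matrix ι n k) (t : ι → k), R * R' = 1 ∧ R' * R = 1 ∧
      Fintype.card ι = Fintype.card n ∧ (∀ x, s (s x) = x) ∧ Function.Injective t ∧
      (∀ x y, x ≠ y → x ≠ s y → ∀ i j, t i - t j = t x - t y →
        (i = x ∧ j = y) ∨ (i = s y ∧ j = s x)) ∧
      ∀ W : Submodule k (Matrix n n k),
        (∀ a b : n → k, vecMulVec a (b ᵥ* B) - vecMulVec b (a ᵥ* B) ∈ W) →
          R * Matrix.diagonal t * R' ∈ W ∧
          ∀ x y, x ≠ y → x ≠ s y →
            R * (Matrix.single x y (1 : k) - Matrix.single (s y) (s x) (1 : k)) * R' ∈ W :=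
  so_frame_pr hp hn B hB hdet

/-- Block O5: the orthogonal Lie algebra generates all matrices. -/
theorem so_alg {k : Type*} [Field k] (h2 : (2 : k) ≠ 0) {n : Type*} [Fintype n] [DecidableEq n]
    (hn : 3 ≤ Fintype.card n) (B : Matrix n n k) (hB : Bᵀ = B) (hdet : IsUnit B.det)
    (W : Submodule k (Matrix n n k))
    (hW : ∀ a b : n → k, vecMulVec a (b ᵥ* B) - vecMulVec b (a ᵥ* B) ∈ W)
    (hmul : ∀ x ∈ W, ∀ y ∈ W, x * y ∈ W) : W = ⊤ :=
  O5.so_alg_pr h2 hn B hB hdet W hW hmul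

/-- Block O4: a Lie algebra of matrices on which all odd power traces vanish preserves a
bilinear form. -/
theorem exists_form {C : Type*} [Field C] [CharZero C] {D : ℕ}
    (L : Submodule C (Matrix (Fin D) (Fin D) C)) (hbr : ∀ x ∈ L, ∀ y ∈ L, x * y - y * x ∈ L)
    (htop : Algebra.adjoin C (L : Set (Matrix (Fin D) (Fin D) C)) = ⊤)
    (hodd : ∀ x ∈ L, ∀ m : ℕ, Odd m → (x ^ m).trace = 0) :
    ∃ J : Matrix (Fin D) (Fin D) C, IsUnit J.det ∧ ∀ x ∈ L, xᵀ * J = -(J * x) :=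
  O4.exists_form_pr L hbr htop hodd

end Pool.Agent.RO
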