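import Mathlib

/-!
# Residual representations whose image contains an orthogonal group: definitions
-/

set_option autoImplicit false

namespace Pool.Agent.RO

open Matrix

section

variable {F : Type*} [Field F] {n : Type*} [Fintype n] [DecidableEq n]

/-- The isometry group of the bilinear form with the matrix `B`. -/
def isoGroup (B : Matrix n n F) : Subgroup (GL n F) where
  carrier := {A | (A : Matrix n n F)ᵀ * B * (A : Matrix n n F) = B}
  one_mem' := by
    show ((1 : GL n F) : Matrix n n F)ᵀ * B * ((1 : GL n F) : Matrix n n F) = B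
    simp
  mul_mem' := by
    intro a b ha hb
    have ha' : (a : Matrix n n F)ᵀ * B * (a : Matrix n n F) = B := ha
    have hb' : (b : Matrix n n F)ᵀ * B * (b : Matrix n n F) = B := hb
    show ((a * b : GL n F) : Matrix n n F)ᵀ * B * ((a * b : GL n F) : Matrix n n F) = B
    rw [Units.val_mul, Matrix.transpose_mul]
    calc (b : Matrix n n F)ᵀ * (a : Matrix n n F)ᵀ * B * ((a : Matrix n n F) * (b : Matrix n n F))
        = (b : Matrix n n F)ᵀ * ((a : Matrix n n F)ᵀ * B * (a : Matrix n n F)) * (b : Matrix n n F) := by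
          simp only [Matrix.mul_assoc]
      _ = B := by rw [ha', hb']
  inv_mem' := by
    intro a ha
    have ha' : (a : Matrix n n F)ᵀ * B * (a : Matrix n n F) = B := ha
    show ((a⁻¹ : GL n F) : Matrix n n F)ᵀ * B * ((a⁻¹ : GL n F) : Matrix n n F) = B
    have h1 : (a : Matrix n n F) * ((a⁻¹ : GL n F) : Matrix n n F) = 1 := by
      rw [← Units.val_mul, mul_inv_cancel, Units.val_one]
    have h2 : ((a⁻¹ : GL n F) : Matrix n n F)ᵀ * (a : Matrix n n F)ᵀ = 1 := by
      rw [← Matrix.transpose_mul, h1, Matrix.transpose_one]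
    calc ((a⁻¹ : GL n F) : Matrix n n F)ᵀ * B * ((a⁻¹ : GL n F) : Matrix n n F)
        = ((a⁻¹ : GL n F) : Matrix n n F)ᵀ * ((a : Matrix n n F)ᵀ * B * (a : Matrix n n F)) *
          ((a⁻¹ : GL n F) : Matrix n n F) := by rw [ha']
      _ = (((a⁻¹ : GL n F) : Matrix n n F)ᵀ * (a : Matrix n n F)ᵀ) * B *
          ((a : Matrix n n F) * ((a⁻¹ : GL n F) : Matrix n n F)) := by
          simp only [Matrix.mul_assoc]
      _ = B := by rw [h1, h2, one_mul, mul_one]

/-- The Eichler transformation of the vectors `u` (isotropic) and `w` (orthogonal to `u`). -/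
def eich (B : Matrix n n F) (u w : n → F) : Matrix n n F :=
  1 + (vecMulVec u (w ᵥ* B) - vecMulVec w (u ᵥ* B)) -
    ((2 : F)⁻¹ * ((w ᵥ* B) ⬝ᵥ w)) • vecMulVec u (u ᵥ* B)

end

/-- The image of `r` contains a conjugate of the commutator subgroup of the isometry group of a
nondegenerate symmetric bilinear form in `d ≥ 5` variables over a field `F` with a homomorphism to
`k`; the form vanishes on a plane (over a finite field this is always true). -/
def ContainsOmega {k : Type*} [Field k] {G : Type*} [Group G] {d : ℕ}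
    (r : G →* Matrix (Fin d) (Fin d) k) : Prop :=
  ∃ (F : Type) (_ : Field F) (_ : Algebra F k) (B : Matrix (Fin d) (Fin d) F)
    (P Q : Matrix (Fin d) (Fin d) k), 5 ≤ d ∧ Bᵀ = B ∧ IsUnit B.det ∧
      (∃ u v : Fin d → F, LinearIndependent F ![u, v] ∧ (u ᵥ* B) ⬝ᵥ u = 0 ∧
        (u ᵥ* B) ⬝ᵥ v = 0 ∧ (v ᵥ* B) ⬝ᵥ v = 0) ∧ P * Q = 1 ∧
      ∀ A ∈ ⁅isoGroup B, isoGroup B⁆,
        ∃ σ, r σ = P * ((A : GL (Fin d) F) : Matrix (Fin d) (Fin d) F).map (algebraMap F k) * Q

end Pool.Agent.RO
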