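import Pool.Agent.Lib_helper29.RO.Single
import Pool.Agent.Lib_helper29.RP.Iso

/-!
# Representations whose reductions contain orthogonal groups: the logarithms
-/

set_option autoImplicit false
set_option linter.unusedSectionVars false

namespace Pool.Agent.RO

open Filter Topology Matrix Pool.Agent.NF Pool.Agent.RF Pool.Agent.TBL Pool.Agent.RP

theorem containsOmega_map {k k' : Type*} [Field k] [Field k'] {G : Type*} [Group G] {d : ℕ}
    (j : k →+* k') (r : G →* Matrix (Fin d) (Fin d) k) (r' : G →* Matrix (Fin d) (Fin d) k')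
    (hr : ∀ g, r' g = (r g).map j) (h : ContainsOmega r) : ContainsOmega r' := by
  obtain ⟨F, hF, hFk, B, P, Q, hd, hBt, hBd, hiso, hPQ, hA⟩ := h
  refine ⟨F, hF, (j.comp (algebraMap F k)).toAlgebra, B, P.map j, Q.map j, hd, hBt, hBd, hiso,
    ?_, ?_⟩
  · rw [← Matrix.map_mul, hPQ, Matrix.map_one _ (map_zero j) (map_one j)]
  · intro X hX
    obtain ⟨σ, hσ⟩ := hA X hX
    refine ⟨σ, ?_⟩
    rw [hr, hσ, Matrix.map_mul, Matrix.map_mul, Matrix.map_map]
    rfl

section

variable {F : Type*} [Field F] {n : Type*} [Fintype n] [DecidableEq n]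

theorem form_symm (B : Matrix n n F) (hB : Bᵀ = B) (u w : n → F) :
    (w ᵥ* B) ⬝ᵥ u = (u ᵥ* B) ⬝ᵥ w := by
  rw [← Matrix.dotProduct_mulVec, ← Matrix.vecMul_transpose, hB, dotProduct_comm]

/-- Eichler transformations: the inverse. -/
theorem eich_mul_neg (h2F : (2 : F) ≠ 0) (B : Matrix n n F) (hB : Bᵀ = B) (u w : n → F)
    (hu : (u ᵥ* B) ⬝ᵥ u = 0) (hw : (u ᵥ* B) ⬝ᵥ w = 0) : eich B u w * eich B u (-w) = 1 := by
  have hwu : (w ᵥ* B) ⬝ᵥ u = 0 := by
    rw [form_symm B hB]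
    exact hw
  unfold eich
  rw [Matrix.neg_vecMul, vecMulVec_neg, neg_vecMulVec, neg_dotProduct_neg]
  set N : Matrix n n F := vecMulVec u (w ᵥ* B) - vecMulVec w (u ᵥ* B) with hN
  set q : F := (2 : F)⁻¹ * ((w ᵥ* B) ⬝ᵥ w) with hq
  set U : Matrix n n F := vecMulVec u (u ᵥ* B) with hU
  have hNN : N * N = -(2 * q) • U := by
    rw [hN, sub_mul, mul_sub, mul_sub, vecMulVec_mul_vecMulVec, vecMulVec_mul_vecMulVec,
      vecMulVec_mul_vecMulVec, vecMulVec_mul_vecMulVec, hwu, hu, hw, hq, hU]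
    have h4 : (2 : F) * (2⁻¹ * ((w ᵥ* B) ⬝ᵥ w)) = (w ᵥ* B) ⬝ᵥ w := by
      rw [← mul_assoc, mul_inv_cancel₀ h2F, one_mul]
    rw [h4, zero_smul, zero_smul, vecMulVec_zero, vecMulVec_zero, vecMulVec_smul]
    simp
  have hNU : N * U = 0 := by
    rw [hN, hU, sub_mul, vecMulVec_mul_vecMulVec, vecMulVec_mul_vecMulVec, hwu, hu, zero_smul,
      vecMulVec_zero, vecMulVec_zero, sub_zero]
  have hUN : U * N = 0 := by
    rw [hN, hU, mul_sub, vecMulVec_mul_vecMulVec, vecMulVec_mul_vecMulVec, hw, hu, zero_smul,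
      zero_smul, vecMulVec_zero, sub_zero]
  have hUU : U * U = 0 := by
    rw [hU, vecMulVec_mul_vecMulVec, hu, zero_smul, vecMulVec_zero]
  have h5 : -vecMulVec u (w ᵥ* B) - -vecMulVec w (u ᵥ* B) = -N := by
    rw [hN]
    abel
  rw [h5]
  calc (1 + N - q • U) * (1 + -N - q • U)
      = 1 - N * N - 2 • (q • U) + q • (U * N) - q • (N * U) + (q * q) • (U * U) := by
        simp only [add_mul, sub_mul, mul_add, mul_sub, mul_one, one_mul, smul_mul_assoc,
          mul_smul_comm, mul_neg]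
        module
    _ = 1 := by
        rw [hNN, hNU, hUN, hUU]
        module

/-- The difference of an Eichler transformation and its inverse. -/
theorem eich_sub (B : Matrix n n F) (u w : n → F) :
    eich B u w - eich B u (-w) = (2 : F) • (vecMulVec u (w ᵥ* B) - vecMulVec w (u ᵥ* B)) := by
  unfold eich
  rw [Matrix.neg_vecMul, vecMulVec_neg, neg_vecMulVec, neg_dotProduct_neg]
  module

/-- There is a vector orthogonal to `u` and not a multiple of `u`. -/
theorem exists_orth (hn : 5 ≤ Fintype.card n) (B : Matrix n n F) (u : n → F) :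
    ∃ w : n → F, (u ᵥ* B) ⬝ᵥ w = 0 ∧ ∀ c : F, w ≠ c • u := by
  let T : (n → F) →ₗ[F] F := dotProductBilin F F (u ᵥ* B)
  have hT : ∀ w, T w = (u ᵥ* B) ⬝ᵥ w := fun _ => rfl
  by_contra hcon
  push Not at hcon
  have h1 : LinearMap.ker T ≤ Submodule.span F {u} := by
    intro w hw
    obtain ⟨c, hc⟩ := hcon w hw
    rw [hc]
    exact Submodule.smul_mem _ _ (Submodule.mem_span_singleton_self u)
  have h2 := Submodule.finrank_mono h1
  have h3 : Module.finrank F (Submodule.span F {u}) ≤ 1 := by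
    have := finrank_span_le_card (R := F) ({u} : Set (n → F))
    simpa using this
  have h4 := LinearMap.finrank_range_add_finrank_ker T
  have h5 : Module.finrank F (LinearMap.range T) ≤ 1 := by
    have := Submodule.finrank_le (LinearMap.range T)
    rwa [Module.finrank_self] at this
  rw [Module.finrank_fintype_fun_eq_card] at h4
  omega

end

/-- The matrices in the image of a representation that contains an orthogonal group span
everything. -/
theorem omega_span {k : Type*} [Field k] [IsAlgClosed k] {p : ℕ} [Fact p.Prime] [CharP k p]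
    (hp5 : 5 ≤ p) {G : Type*} [Group G] {d : ℕ} (r : G →* Matrix (Fin d) (Fin d) k)
    (h : ContainsOmega r) : Submodule.span k (Set.range r) = ⊤ := by
  classical
  obtain ⟨F, _, _, B, P, Q, hd5, hBt, hBd, ⟨u, v₀, hlin, hu, -, -⟩, hPQ, hF⟩ := h
  have hu0 : u ≠ 0 := hlin.ne_zero 0
  have hQP : Q * P = 1 := mul_eq_one_comm.1 hPQ
  have h2 : (2 : k) ≠ 0 := by
    intro h
    have h3 : ((2 : ℕ) : k) = 0 := by exact_mod_cast h
    rw [CharP.cast_eq_zero_iff _ p] at h3
    have := Nat.le_of_dvd (by norm_num) h3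
    omega
  have h2F : (2 : F) ≠ 0 := by
    intro h
    apply h2
    have h3 := congrArg (algebraMap F k) h
    rw [map_zero, map_ofNat] at h3
    exact h3
  set Bk : Matrix (Fin d) (Fin d) k := B.map (algebraMap F k) with hBk
  have hBkt : Bkᵀ = Bk := by
    rw [hBk, ← Matrix.transpose_map, hBt]
  have hBkd : IsUnit Bk.det := by
    have : Bk.det = algebraMap F k B.det := by
      rw [hBk]
      exact ((algebraMap F k).map_det B).symm
    rw [this]
    exact hBd.map _
  let f : Matrix (Fin d) (Fin d) k →ₗ[k] Matrix (Fin d) (Fin d) k :=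
    { toFun := fun Y => P * Y * Q
      map_add' := fun X₁ X₂ => by rw [Matrix.mul_add, Matrix.add_mul]
      map_smul' := fun c X₁ => by rw [Matrix.mul_smul, Matrix.smul_mul, RingHom.id_apply] }
  have hback : ∀ X : Matrix (Fin d) (Fin d) k, P * (Q * X * P) * Q = X := by
    intro X
    calc P * (Q * X * P) * Q = (P * Q) * X * (P * Q) := by simp only [Matrix.mul_assoc]
      _ = X := by rw [hPQ, one_mul, mul_one]
  have hmulPQ : ∀ X₁ X₂ : Matrix (Fin d) (Fin d) k,
      P * (X₁ * X₂) * Q = (P * X₁ * Q) * (P * X₂ * Q) := by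
    intro X₁ X₂
    calc P * (X₁ * X₂) * Q = P * (X₁ * 1 * X₂) * Q := by rw [Matrix.mul_one]
      _ = _ := by rw [← hQP]; simp only [Matrix.mul_assoc]
  set W := Submodule.span k (Set.range r) with hW
  have hmul : ∀ x ∈ W, ∀ y ∈ W, x * y ∈ W := by
    intro x hx y hy
    rw [hW] at hx hy ⊢
    induction hx using Submodule.span_induction with
    | mem x hx =>
      obtain ⟨a, rfl⟩ := hx
      induction hy using Submodule.span_induction with
      | mem y hy =>
        obtain ⟨b, rfl⟩ := hy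
        rw [← map_mul]
        exact Submodule.subset_span ⟨_, rfl⟩
      | zero =>
        rw [mul_zero]
        exact Submodule.zero_mem _
      | add y z _ _ hy hz =>
        rw [mul_add]
        exact Submodule.add_mem _ hy hz
      | smul c y _ hy =>
        rw [mul_smul_comm]
        exact Submodule.smul_mem _ _ hy
    | zero =>
      rw [zero_mul]
      exact Submodule.zero_mem _
    | add x z _ _ hx hz =>
      rw [add_mul]
      exact Submodule.add_mem _ hx hz
    | smul c x _ hx =>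
      rw [smul_mul_assoc]
      exact Submodule.smul_mem _ _ hx
  have hf : ∀ Z, Z ∈ W.comap f ↔ P * Z * Q ∈ W := fun _ => Iff.rfl
  have hmulf : ∀ x ∈ W.comap f, ∀ y ∈ W.comap f, x * y ∈ W.comap f := by
    intro x hx y hy
    rw [hf] at hx hy ⊢
    rw [hmulPQ]
    exact hmul _ hx _ hy
  have hE : ∀ u w : Fin d → F, (u ᵥ* B) ⬝ᵥ u = 0 → (u ᵥ* B) ⬝ᵥ w = 0 →
      (eich B u w).map (algebraMap F k) ∈ W.comap f := by
    intro u w hu hw
    obtain ⟨a, ha, hau⟩ := eich_mem h2F B hBt hBd u w hu hw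
    obtain ⟨σ, hσ⟩ := hF a ha
    rw [hau] at hσ
    rw [hf, ← hσ]
    exact Submodule.subset_span ⟨σ, rfl⟩
  obtain ⟨w, hw, hwu⟩ := exists_orth (by rw [Fintype.card_fin]; exact hd5) B u
  have hw' : (u ᵥ* B) ⬝ᵥ (-w) = 0 := by
    rw [dotProduct_neg, hw, neg_zero]
  set N : Matrix (Fin d) (Fin d) F := vecMulVec u (w ᵥ* B) - vecMulVec w (u ᵥ* B) with hN
  have huB : u ᵥ* B ≠ 0 := by
    intro h
    apply hu0
    have h3 : (u ᵥ* B) ᵥ* B⁻¹ = u := by
      rw [Matrix.vecMul_vecMul, Matrix.mul_nonsing_inv _ hBd, Matrix.vecMul_one]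
    rw [← h3, h, Matrix.zero_vecMul]
  have hN0 : N ≠ 0 := by
    intro h
    obtain ⟨j, hj⟩ := Function.ne_iff.1 huB
    apply hwu ((w ᵥ* B) j * ((u ᵥ* B) j)⁻¹)
    ext i
    have h3 := congrFun (congrFun h i) j
    rw [hN, Matrix.sub_apply, vecMulVec_apply, vecMulVec_apply, Matrix.zero_apply,
      sub_eq_zero] at h3
    have h4 : (u ᵥ* B) j ≠ 0 := hj
    rw [Pi.smul_apply, smul_eq_mul]
    field_simp
    linear_combination -h3
  set X : Matrix (Fin d) (Fin d) k := N.map (algebraMap F k) with hX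
  have hXW : X ∈ W.comap f := by
    have h3 : X = (2 : k)⁻¹ • ((eich B u w).map (algebraMap F k) -
        (eich B u (-w)).map (algebraMap F k)) := by
      rw [← Matrix.map_sub _ (map_sub _), eich_sub, ← hN]
      ext i j
      simp only [hX, Matrix.map_apply, Matrix.smul_apply, map_mul, smul_eq_mul, map_ofNat]
      rw [← mul_assoc, inv_mul_cancel₀ h2, one_mul]
    rw [h3]
    exact Submodule.smul_mem _ _ (Submodule.sub_mem _ (hE u w hu hw) (hE u (-w) hu hw'))
  have hXs : ∀ l : k, X ≠ l • 1 := by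
    intro l hl
    set U : Matrix (Fin d) (Fin d) F := vecMulVec u (u ᵥ* B) with hU
    have hwu' : (w ᵥ* B) ⬝ᵥ u = 0 := by
      rw [form_symm B hBt]
      exact hw
    have hNU : N * U = 0 := by
      rw [hN, hU, sub_mul, vecMulVec_mul_vecMulVec, vecMulVec_mul_vecMulVec, hwu', hu, zero_smul,
        vecMulVec_zero, vecMulVec_zero, sub_zero]
    have h3 : X * U.map (algebraMap F k) = 0 := by
      rw [hX, ← Matrix.map_mul, hNU, Matrix.map_zero _ (map_zero _)]
    have hU0 : U.map (algebraMap F k) ≠ 0 := by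
      intro h
      obtain ⟨i, hi⟩ := Function.ne_iff.1 hu0
      obtain ⟨j, hj⟩ := Function.ne_iff.1 huB
      have h4 := congrFun (congrFun h i) j
      rw [Matrix.map_apply, Matrix.zero_apply, hU, vecMulVec_apply, map_eq_zero] at h4
      exact mul_ne_zero hi hj h4
    rw [hl, smul_mul_assoc, one_mul, smul_eq_zero] at h3
    rcases h3 with h3 | h3
    · apply hN0
      ext i j
      have h4 := congrFun (congrFun hl i) j
      rw [h3, zero_smul, Matrix.zero_apply, hX, Matrix.map_apply, map_eq_zero] at h4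
      exact h4
    · exact hU0 h3
  have h4 := so_mem (p := p) hp5 (by rw [Fintype.card_fin]; exact hd5) B hBt hBd ⟨u, hu0, hu⟩
    (W.comap f) (fun x hx y hy => Submodule.sub_mem _ (hmulf x hx y hy) (hmulf y hy x hx))
    (fun u w hu hw Y hY => hmulf _ (hmulf _ (hE u w hu hw) _ hY) _ (hE u (-w) hu (by
      rw [dotProduct_neg, hw, neg_zero]))) hXW hXs
  have h5 := so_alg h2 (by rw [Fintype.card_fin]; omega) Bk hBkt hBkd (W.comap f) h4 hmulf
  rw [eq_top_iff]
  intro Y _
  have h6 : Q * Y * P ∈ W.comap f := by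
    rw [h5]
    exact Submodule.mem_top
  have h7 : P * (Q * Y * P) * Q ∈ W := h6
  rwa [hback] at h7

section

variable {k : Type*} [NontriviallyNormedField k] [IsUltrametricDist k] [CompleteSpace k]
  {G : Type*} [Group G]

attribute [local instance] matRing matAlg matUltra matComplete

variable [TopologicalSpace G] [IsTopologicalGroup G] [CompactSpace G] [TotallyDisconnectedSpace G]

/-- The logarithms of one representation are big if every stable Lie algebra is. -/
theorem big_one [CharZero k] [IsAlgClosed k] {p : ℕ} [hp : Fact p.Prime] (hp0 : (p : k) ≠ 0)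
    (hp1 : ‖(p : k)‖ < 1) {D : ℕ} (ρ : G →* Matrix (Fin D) (Fin D) k) (hρ : Continuous ρ)
    (hns : ∀ N : Subgroup G, IsOpen (N : Set G) → ∃ h ∈ N, ∀ c : k, ρ h ≠ c • 1)
    (hL : ∀ L : Submodule k (Matrix (Fin D) (Fin D) k), (∀ x ∈ L, ∀ y ∈ L, x * y - y * x ∈ L) →
      (∀ g, ∀ x ∈ L, ρ g * x * ρ g⁻¹ ∈ L) → (∃ x ∈ L, ∀ c : k, x ≠ c • 1) →
      ∀ z : Matrix (Fin D) (Fin D) k, z.trace = 0 → ∃ x ∈ L, ∃ c : k, x = z + c • 1) :
    Big p (fun _ : Unit => ρ) := by
  classical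
  intro H hH z hz
  obtain ⟨N, hn, hNo, hNH, hNs⟩ := exists_small (fun _ : Unit => ρ) (1 : G →* k) hp0
    (fun _ => hρ) (by exact continuous_const) H hH
  let L0 : Submodule k (∀ _ : Unit, Matrix (Fin D) (Fin D) k) :=
    (LS (fun _ : Unit => ρ) (1 : G →* k) p N).map (LinearMap.fst k _ k)
  have memL0 : ∀ y ∈ L0, ∃ ξ : k, (y, ξ) ∈ LS (fun _ : Unit => ρ) (1 : G →* k) p N := by
    rintro y ⟨w, hw', rfl⟩
    exact ⟨w.2, hw'⟩
  have hL0 : ∀ y ξ, (y, ξ) ∈ LS (fun _ : Unit => ρ) (1 : G →* k) p N → y ∈ L0 :=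
    fun y ξ h => ⟨(y, ξ), h, rfl⟩
  have hbr : ∀ x ∈ L0, ∀ y ∈ L0, x * y - y * x ∈ L0 := by
    intro x hx y hy
    obtain ⟨ξ, hx'⟩ := memL0 _ hx
    obtain ⟨η, hy'⟩ := memL0 _ hy
    have h3 := LS_bracket (fun _ : Unit => ρ) (1 : G →* k) hp0 hp1 N hn hNs hx' hy'
    unfold br at h3
    have h4 : x * y - y * x = fun a => x a * y a - y a * x a := rfl
    rw [h4]
    exact hL0 _ _ h3
  have hconj : ∀ g, ∀ x ∈ L0, (fun a => ρ g * x a * ρ g⁻¹) ∈ L0 := by
    intro g x hx
    obtain ⟨ξ, hx'⟩ := memL0 _ hx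
    have h3 := LS_conj (fun _ : Unit => ρ) (1 : G →* k) hp0 hp1 N hn hNs g hx'
    unfold cj at h3
    exact hL0 _ _ h3
  have hone : ∀ (a : Unit) (z : Matrix (Fin D) (Fin D) k), z.trace = 0 →
      ∃ x ∈ L0, ∃ c : k, x a = z + c • 1 := by
    intro a z hz
    let La : Submodule k (Matrix (Fin D) (Fin D) k) := L0.map
      (LinearMap.proj a : (∀ _ : Unit, Matrix (Fin D) (Fin D) k) →ₗ[k]
        Matrix (Fin D) (Fin D) k)
    have memLa : ∀ y ∈ La, ∃ x ∈ L0, x a = y := by
      rintro y ⟨x, hx, hxy⟩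
      exact ⟨x, hx, hxy⟩
    have hLa : ∀ x ∈ L0, x a ∈ La := fun x hx => ⟨x, hx, rfl⟩
    have h1 : ∀ x ∈ La, ∀ y ∈ La, x * y - y * x ∈ La := by
      intro x' hx' y' hy'
      obtain ⟨x, hx, hxx⟩ := memLa x' hx'
      obtain ⟨y, hy, hyy⟩ := memLa y' hy'
      have h2 := hLa _ (hbr x hx y hy)
      rw [Pi.sub_apply, Pi.mul_apply, Pi.mul_apply, hxx, hyy] at h2
      exact h2
    have h2 : ∀ g, ∀ x ∈ La, ρ g * x * ρ g⁻¹ ∈ La := by
      intro g x' hx'
      obtain ⟨x, hx, hxx⟩ := memLa x' hx'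
      have h3 := hLa _ (hconj g x hx)
      rw [← hxx]
      exact h3
    have h3 : ∃ x ∈ La, ∀ c : k, x ≠ c • 1 := by
      obtain ⟨h, hh, hne⟩ := hns N hNo
      refine ⟨lg k p (ρ h), hLa (fun _ => lg k p (ρ h))
        (hL0 _ _ (lgs_mem (fun _ : Unit => ρ) (1 : G →* k) p N hh (hNs h hh))), ?_⟩
      intro c hc
      obtain ⟨l, hl⟩ := scalar_of_lg hp0 hp1 ((hNs h hh).1 a) hc
      exact hne l hl
    obtain ⟨y, hy, c, hyc⟩ := hL La h1 h2 h3 z hz
    obtain ⟨x, hx, hxy⟩ := memLa y hy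
    exact ⟨x, hx, c, by rw [hxy, hyc]⟩
  have h3 := goursat_tr (fun _ : Unit => ρ) L0 hbr hconj hone
    (fun a c h => absurd (Subsingleton.elim a c) h) z hz
  obtain ⟨ξ, h5⟩ := memL0 _ h3
  have h6 : LS (fun _ : Unit => ρ) (1 : G →* k) p N ≤ (Submodule.span k
      {x : ∀ _ : Unit, Matrix (Fin D) (Fin D) k | ∃ h ∈ H,
        (∀ _ : Unit, ‖ρ h - 1‖ ≤ ‖(p : k)‖ ^ 2) ∧ x = fun _ => lg k p (ρ h)}).comap
        (LinearMap.fst k _ k) := by
    unfold LS
    rw [Submodule.span_le]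
    rintro x ⟨h, hh, hsm, rfl⟩
    exact Submodule.subset_span ⟨h, hNH hh, hsm.1, rfl⟩
  exact h6 h5

end

section

variable {G : Type*} [Group G] [TopologicalSpace G] [IsTopologicalGroup G] [CompactSpace G]
  [TotallyDisconnectedSpace G] {p : ℕ} [hp : Fact p.Prime]

/-- **Orthogonal residual representation.** -/
theorem omega_single (hp5 : 5 ≤ p) {d : ℕ} (ρ : G →* Matrix (Fin d) (Fin d) ℂ_[p])
    (hρ : Continuous ρ) (r : G →* Matrix (Fin d) (Fin d) (AlgebraicClosure (ZMod p)))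
    (hsp : ContainsOmega r)
    (htr : ∀ g, ∃ t : ℤ, ‖(ρ g).trace - t‖ < 1 ∧
      (r g).trace = (t : AlgebraicClosure (ZMod p)))
    (hpD : ¬ p ∣ d)
    (hns : ∀ N : Subgroup G, IsOpen (N : Set G) → ∃ h ∈ N, ∀ c : ℂ_[p], ρ h ≠ c • 1)
    (hN1 : ¬ SelfDual ρ) : Big p (fun _ : Unit => ρ) := by
  have hp0 : (p : ℂ_[p]) ≠ 0 := by exact_mod_cast hp.out.ne_zero
  have hp1 : ‖(p : ℂ_[p])‖ < 1 := norm_p_lt p
  have hcharP : CharP (IsLocalRing.ResidueField (VR ℂ_[p])) p := charP_residue hp.out hp1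
  have hclosed := residue_closed (VR ℂ_[p])
  obtain ⟨j, ρ', hρ', htr'⟩ := exists_red' ρ r htr
  have hom := containsOmega_map j.toRingHom r ρ' hρ' hsp
  have hspan := omega_span (p := p) hp5 ρ' hom
  exact big_one hp0 hp1 ρ hρ hns (omega_big hp5 hpD hom hspan htr'
    (fun r c hc => eig_int ρ hρ r c hc) hN1)

end

end Pool.Agent.RO
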