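import Pool.Agent.Lib_helper29.RP.Root

/-!
# Lifting the eigenvalues and the root vectors
-/

set_option autoImplicit false

namespace Pool.Agent.RO

open Matrix Pool.Agent.NF Pool.Agent.RP Polynomial

section

set_option linter.unusedSectionVars false

variable {C : Type*} [Field C] [IsAlgClosed C] {A : ValuationSubring C} {Γ : Type*} [Group Γ]
  {D : ℕ} {ρ : Γ →* Matrix (Fin D) (Fin D) C}
  {ρ' : Γ →* Matrix (Fin D) (Fin D) (IsLocalRing.ResidueField A)}

/-- The eigenvalues of a lift of a diagonalizable matrix with different eigenvalues. -/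
theorem eig_data
    (hspan : Submodule.span (IsLocalRing.ResidueField A) (Set.range ρ') = ⊤)
    (htr : ∀ γ, ∃ t : A, (t : C) = (ρ γ).trace ∧ IsLocalRing.residue A t = (ρ' γ).trace)
    (hint : ∀ (r : MonoidAlgebra A Γ) (c : C), (nfl_phi A ρ r).charpoly.IsRoot c → c ∈ A)
    {n : Type*} [Fintype n] [DecidableEq n]
    {P : Matrix (Fin D) n (IsLocalRing.ResidueField A)}
    {Q : Matrix n (Fin D) (IsLocalRing.ResidueField A)} (hPQ : P * Q = 1) (hQP : Q * P = 1)
    (hn : Fintype.card n = D)
    (τ : n → IsLocalRing.ResidueField A) (hτ : Function.Injective τ) (rh : MonoidAlgebra A Γ)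
    (hh2 : nfl_psi A ρ' rh = P * Matrix.diagonal τ * Q) :
    ∃ (l : Fin D → C) (e : n → Fin D) (P' Q' : Matrix (Fin D) (Fin D) C) (m : n → A),
      Function.Bijective e ∧ Function.Injective l ∧ P' * Q' = 1 ∧ Q' * P' = 1 ∧
      nfl_phi A ρ rh = P' * Matrix.diagonal l * Q' ∧ (∀ a, (m a : C) = l (e a)) ∧
      (∀ a, IsLocalRing.residue A (m a) = τ a) ∧
      ∀ (ry : MonoidAlgebra A Γ) (a₀ b₀ : n), (Q * nfl_psi A ρ' ry * P) a₀ b₀ ≠ 0 →
        (Q' * nfl_phi A ρ ry * P') (e a₀) (e b₀) ≠ 0 := by
  classical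
  set X := nfl_phi A ρ rh with hX
  -- the eigenvalues
  obtain ⟨l, hl⟩ := Pool.Agent.TE.te7_enum X.charpoly (Matrix.charpoly_monic X)
    (m := D) (by rw [Matrix.charpoly_natDegree_eq_dim, Fintype.card_fin])
  have hlA : ∀ i, l i ∈ A := by
    intro i
    apply hint rh
    rw [← hX, hl, Polynomial.IsRoot.def, Polynomial.eval_prod]
    exact Finset.prod_eq_zero (Finset.mem_univ i) (by simp)
  let m : Fin D → A := fun i => ⟨l i, hlA i⟩
  have hm : ∀ i, (m i : C) = l i := fun i => rfl
  -- every `τ a` is the reduction of an eigenvalue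
  have hex : ∀ a, ∃ i, IsLocalRing.residue A (m i) = τ a := by
    let q : A[X] := ∏ i, (Polynomial.X - Polynomial.C (m i))
    have hq1 : aeval X q = 0 := by
      have h2 : q.map (algebraMap A C) = X.charpoly := by
        rw [hl, Polynomial.map_prod]
        refine Finset.prod_congr rfl fun i _ => ?_
        rw [Polynomial.map_sub, Polynomial.map_X, Polynomial.map_C]
        rfl
      rw [← Polynomial.aeval_map_algebraMap C X q, h2, Matrix.aeval_self_charpoly]
    have hq2 : nfl_phi A ρ (aeval rh q) = 0 := by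
      rw [← Polynomial.aeval_algHom_apply, ← hX, hq1]
    have hq3 := nfl_ker A hspan htr hq2
    rw [← Polynomial.aeval_algHom_apply, hh2, aeval_conj hPQ hQP] at hq3
    have hq4 : Matrix.diagonal (fun i => aeval (τ i) q) = 0 := by
      calc Matrix.diagonal (fun i => aeval (τ i) q)
          = (Q * P) * Matrix.diagonal (fun i => aeval (τ i) q) * (Q * P) := by
            rw [hQP, one_mul, mul_one]
        _ = Q * (P * Matrix.diagonal (fun i => aeval (τ i) q) * Q) * P := by
            simp only [Matrix.mul_assoc]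
        _ = 0 := by rw [hq3, Matrix.mul_zero, Matrix.zero_mul]
    intro a
    have hq5 := congrFun (congrFun hq4 a) a
    rw [Matrix.diagonal_apply_eq, Matrix.zero_apply, map_prod, Finset.prod_eq_zero_iff] at hq5
    obtain ⟨i, -, hi⟩ := hq5
    refine ⟨i, ?_⟩
    rw [map_sub, aeval_X, aeval_C, sub_eq_zero, IsLocalRing.ResidueField.algebraMap_eq] at hi
    exact hi.symm
  choose e he using hex
  have hei : Function.Injective e := by
    intro a b hab
    apply hτ
    rw [← he a, ← he b, hab]
  have heb : Function.Bijective e := by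
    rw [Fintype.bijective_iff_injective_and_card]
    exact ⟨hei, by rw [hn, Fintype.card_fin]⟩
  have hli : Function.Injective l := by
    intro i j hij
    obtain ⟨a, rfl⟩ := heb.2 i
    obtain ⟨b, rfl⟩ := heb.2 j
    congr 1
    apply hτ
    rw [← he a, ← he b]
    congr 1
    exact Subtype.ext hij
  obtain ⟨P', Q', hPQ', hQP', hD⟩ := Pool.Agent.TE.te7_diag X l hli hl
  have hXd : X = P' * Matrix.diagonal l * Q' := by
    rw [← hD]
    calc X = (P' * Q') * X * (P' * Q') := by rw [hPQ', one_mul, mul_one]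
      _ = _ := by simp only [Matrix.mul_assoc]
  refine ⟨l, e, P', Q', fun a => m (e a), heb, hli, hPQ', hQP', hXd, fun a => hm (e a),
    fun a => he a, ?_⟩
  intro ry a₀ b₀ hY0 hz
  set Z := Q' * nfl_phi A ρ ry * P' with hZdef
  let qq : n → A[X] := fun c => ∏ b ∈ Finset.univ.erase c, (Polynomial.X - Polynomial.C (m (e b)))
  have hqq : ∀ c i, i ≠ e c → aeval (l i) (qq c) = 0 := by
    intro c i hi
    obtain ⟨b, rfl⟩ := heb.2 i
    have hbc : b ≠ c := fun h => hi (by rw [h])
    rw [map_prod]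
    refine Finset.prod_eq_zero (Finset.mem_erase.2 ⟨hbc, Finset.mem_univ b⟩) ?_
    rw [map_sub, aeval_X, aeval_C]
    exact sub_self _
  have hqq' : ∀ c, aeval (τ c) (qq c) ≠ 0 := by
    intro c
    rw [map_prod]
    refine Finset.prod_ne_zero_iff.2 fun b hb => ?_
    rw [map_sub, aeval_X, aeval_C, IsLocalRing.ResidueField.algebraMap_eq, he, sub_ne_zero]
    intro h
    exact (Finset.mem_erase.1 hb).1 (hτ h).symm
  have h2 : nfl_phi A ρ (aeval rh (qq a₀) * ry * aeval rh (qq b₀)) = 0 := by
    rw [map_mul, map_mul, ← Polynomial.aeval_algHom_apply, ← Polynomial.aeval_algHom_apply, ← hX,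
      hXd, aeval_conj hPQ' hQP', aeval_conj hPQ' hQP']
    have h3 : P' * Matrix.diagonal (fun i => aeval (l i) (qq a₀)) * Q' * nfl_phi A ρ ry *
        (P' * Matrix.diagonal (fun i => aeval (l i) (qq b₀)) * Q') =
        P' * (Matrix.diagonal (fun i => aeval (l i) (qq a₀)) * Z *
          Matrix.diagonal (fun i => aeval (l i) (qq b₀))) * Q' := by
      rw [hZdef]
      simp only [Matrix.mul_assoc]
    rw [h3]
    have h4 : Matrix.diagonal (fun i => aeval (l i) (qq a₀)) * Z *
          Matrix.diagonal (fun i => aeval (l i) (qq b₀)) = 0 := by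
      ext i j
      rw [Matrix.mul_diagonal, Matrix.diagonal_mul, Matrix.zero_apply]
      by_cases hi : i = e a₀
      · by_cases hj : j = e b₀
        · rw [hi, hj, hz, mul_zero, zero_mul]
        · rw [hqq _ _ hj, mul_zero]
      · rw [hqq _ _ hi, zero_mul, zero_mul]
    rw [h4, Matrix.mul_zero, Matrix.zero_mul]
  have h3 := nfl_ker A hspan htr h2
  rw [map_mul, map_mul, ← Polynomial.aeval_algHom_apply, ← Polynomial.aeval_algHom_apply, hh2,
    aeval_conj hPQ hQP, aeval_conj hPQ hQP] at h3
  have h4 : Matrix.diagonal (fun i => aeval (τ i) (qq a₀)) * (Q * nfl_psi A ρ' ry * P) *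
      Matrix.diagonal (fun i => aeval (τ i) (qq b₀)) = 0 := by
    calc Matrix.diagonal (fun i => aeval (τ i) (qq a₀)) * (Q * nfl_psi A ρ' ry * P) *
          Matrix.diagonal (fun i => aeval (τ i) (qq b₀))
        = (Q * P) * Matrix.diagonal (fun i => aeval (τ i) (qq a₀)) * (Q * nfl_psi A ρ' ry * P) *
          Matrix.diagonal (fun i => aeval (τ i) (qq b₀)) * (Q * P) := by
          rw [hQP, one_mul, mul_one]
      _ = Q * (P * Matrix.diagonal (fun i => aeval (τ i) (qq a₀)) * Q * nfl_psi A ρ' ry *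
          (P * Matrix.diagonal (fun i => aeval (τ i) (qq b₀)) * Q)) * P := by
          simp only [Matrix.mul_assoc]
      _ = 0 := by rw [h3, Matrix.mul_zero, Matrix.zero_mul]
  have h5 := congrFun (congrFun h4 a₀) b₀
  rw [Matrix.mul_diagonal, Matrix.diagonal_mul, Matrix.zero_apply] at h5
  exact mul_ne_zero (mul_ne_zero (hqq' a₀) hY0) (hqq' b₀) h5

/-- A root vector gives a rank one element of a space closed under brackets, or its differences
of eigenvalues coincide. -/
theorem rank_one_or (S : Submodule C (Matrix (Fin D) (Fin D) C))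
    (hbr : ∀ x ∈ S, ∀ y ∈ S, x * y - y * x ∈ S) {l : Fin D → C}
    {P' Q' : Matrix (Fin D) (Fin D) C} (hPQ' : P' * Q' = 1) (hQP' : Q' * P' = 1)
    {X Y : Matrix (Fin D) (Fin D) C} (hX : X ∈ S) (hXd : X = P' * Matrix.diagonal l * Q')
    (hY : Y ∈ S) {x y : Fin D} (hxy : x ≠ y)
    (hu : ∀ i j, l i - l j = l x - l y → i = x ∧ j = y) (h0 : (Q' * Y * P') x y ≠ 0) :
    ∃ v f : Fin D → C, v ≠ 0 ∧ f ≠ 0 ∧ f ⬝ᵥ v = 0 ∧ vecMulVec v f ∈ S := by
  classical
  let f : Matrix (Fin D) (Fin D) C →ₗ[C] Matrix (Fin D) (Fin D) C :=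
    { toFun := fun Z => P' * Z * Q'
      map_add' := fun Y Z => by rw [mul_add, add_mul]
      map_smul' := fun c Y => by rw [RingHom.id_apply, mul_smul_comm, smul_mul_assoc] }
  let S' := S.comap f
  have hS' : ∀ Z, Z ∈ S' ↔ P' * Z * Q' ∈ S := fun _ => Iff.rfl
  have hback : ∀ Z, P' * (Q' * Z * P') * Q' = Z := by
    intro Z
    calc P' * (Q' * Z * P') * Q' = (P' * Q') * Z * (P' * Q') := by simp only [Matrix.mul_assoc]
      _ = Z := by rw [hPQ', one_mul, mul_one]
  have hbrS : ∀ Z ∈ S', Matrix.diagonal l * Z - Z * Matrix.diagonal l ∈ S' := by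
    intro Z hZ
    rw [hS'] at hZ ⊢
    have h2 := hbr X hX _ hZ
    have h3 : P' * (Matrix.diagonal l * Z - Z * Matrix.diagonal l) * Q' =
        X * (P' * Z * Q') - P' * Z * Q' * X := by
      rw [hXd]
      calc P' * (Matrix.diagonal l * Z - Z * Matrix.diagonal l) * Q'
          = P' * Matrix.diagonal l * 1 * Z * Q' - P' * Z * 1 * Matrix.diagonal l * Q' := by
            noncomm_ring
        _ = _ := by rw [← hQP']; noncomm_ring
    rw [h3]
    exact h2
  have hZ : Q' * Y * P' ∈ S' := by
    rw [hS', hback]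
    exact hY
  have hs := root_single l S' hbrS hZ hu h0
  rw [hS'] at hs
  refine ⟨fun i => P' i x, fun j => Q' y j, ?_, ?_, ?_, ?_⟩
  · intro h
    have h2 := congrFun (congrFun hQP' x) x
    rw [Matrix.mul_apply, Matrix.one_apply_eq] at h2
    have h3 : ∀ i, P' i x = 0 := fun i => congrFun h i
    simp only [h3, mul_zero, Finset.sum_const_zero] at h2
    exact zero_ne_one h2
  · intro h
    have h2 := congrFun (congrFun hQP' y) y
    rw [Matrix.mul_apply, Matrix.one_apply_eq] at h2
    have h3 : ∀ i, Q' y i = 0 := fun i => congrFun h i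
    simp only [h3, zero_mul, Finset.sum_const_zero] at h2
    exact zero_ne_one h2
  · have h2 := congrFun (congrFun hQP' y) x
    rw [Matrix.mul_apply, Matrix.one_apply_ne hxy.symm] at h2
    exact h2
  · have h2 : vecMulVec (fun i => P' i x) (fun j => Q' y j) =
        P' * Matrix.single x y 1 * Q' := by
      ext i j
      rw [vecMulVec_apply, Matrix.mul_apply, Finset.sum_eq_single y]
      · rw [Matrix.mul_apply, Finset.sum_eq_single x]
        · rw [Matrix.single_apply_same, mul_one]
        · intro z _ hz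
          rw [Matrix.single_apply_of_ne, mul_zero]
          exact fun h => hz h.1.symm
        · intro h
          exact absurd (Finset.mem_univ _) h
      · intro z _ hz
        rw [Matrix.mul_apply, Finset.sum_eq_zero, zero_mul]
        intro w _
        rw [Matrix.single_apply_of_ne, mul_zero]
        exact fun h => hz h.2.symm
      · intro h
        exact absurd (Finset.mem_univ _) h
    rw [h2]
    exact hs

/-- Without rank one elements, the spectrum of a generic traceless element is symmetric. -/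
theorem symm_spec [CharZero C]
    (hspan : Submodule.span (IsLocalRing.ResidueField A) (Set.range ρ') = ⊤)
    (htr : ∀ γ, ∃ t : A, (t : C) = (ρ γ).trace ∧ IsLocalRing.residue A t = (ρ' γ).trace)
    (hint : ∀ (r : MonoidAlgebra A Γ) (c : C), (nfl_phi A ρ r).charpoly.IsRoot c → c ∈ A)
    (S : Submodule C (Matrix (Fin D) (Fin D) C)) (hbr : ∀ x ∈ S, ∀ y ∈ S, x * y - y * x ∈ S)
    (htr0 : ∀ x ∈ S, x.trace = 0)
    (hno : ¬ ∃ v f : Fin D → C, v ≠ 0 ∧ f ≠ 0 ∧ f ⬝ᵥ v = 0 ∧ vecMulVec v f ∈ S)
    {n : Type*} [Fintype n] [DecidableEq n]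
    {P : Matrix (Fin D) n (IsLocalRing.ResidueField A)}
    {Q : Matrix n (Fin D) (IsLocalRing.ResidueField A)} (hPQ : P * Q = 1) (hQP : Q * P = 1)
    (hn : Fintype.card n = D) (s : n → n) (hs : ∀ x, s (s x) = x)
    (τ : n → IsLocalRing.ResidueField A) (hτ : Function.Injective τ)
    (hu : ∀ x y, x ≠ y → x ≠ s y → ∀ i j, τ i - τ j = τ x - τ y →
      (i = x ∧ j = y) ∨ (i = s y ∧ j = s x))
    (hroot : ∀ x y, x ≠ y → x ≠ s y → P * (Matrix.single x y (1 : IsLocalRing.ResidueField A) -
      Matrix.single (s y) (s x) (1 : IsLocalRing.ResidueField A)) * Q ∈ redS A ρ ρ' S) {rh : MonoidAlgebra A Γ} (hh1 : nfl_phi A ρ rh ∈ S)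
    (hh2 : nfl_psi A ρ' rh = P * Matrix.diagonal τ * Q) (m : ℕ) (hm : Odd m) :
    ((nfl_phi A ρ rh) ^ m).trace = 0 := by
  classical
  obtain ⟨l, e, P', Q', mm, heb, hli, hPQ', hQP', hXd, hm1, hm2, hent⟩ :=
    eig_data hspan htr hint hPQ hQP hn τ hτ rh hh2
  -- sums of opposite eigenvalues
  have hsum : ∀ a b, l (e a) + l (e (s a)) = l (e b) + l (e (s b)) := by
    intro a b
    by_cases hab : a = b
    · rw [hab]
    by_cases hab' : a = s b
    · rw [hab', hs, add_comm]
    by_contra hne
    apply hno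
    obtain ⟨ry, hy1, hy2⟩ := hroot a b hab hab'
    refine rank_one_or S hbr hPQ' hQP' hh1 hXd hy1 (x := e a) (y := e b)
      (fun h => hab (heb.1 h)) ?_ ?_
    · intro i j hij
      obtain ⟨i, rfl⟩ := heb.2 i
      obtain ⟨j, rfl⟩ := heb.2 j
      have h2 : mm i - mm j = mm a - mm b := by
        apply Subtype.ext
        rw [AddSubgroupClass.coe_sub, AddSubgroupClass.coe_sub, hm1, hm1, hm1, hm1]
        exact hij
      have h3 := congrArg (IsLocalRing.residue A) h2
      rw [map_sub, map_sub, hm2, hm2, hm2, hm2] at h3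
      rcases hu a b hab hab' i j h3 with ⟨rfl, rfl⟩ | ⟨rfl, rfl⟩
      · exact ⟨rfl, rfl⟩
      · exfalso
        apply hne
        linear_combination -hij
    · apply hent
      rw [hy2]
      set T : Matrix n n (IsLocalRing.ResidueField A) :=
        Matrix.single a b (1 : IsLocalRing.ResidueField A) -
          Matrix.single (s b) (s a) (1 : IsLocalRing.ResidueField A) with hT
      have h3 : Q * (P * T * Q) * P = T := by
        calc Q * (P * T * Q) * P = (Q * P) * T * (Q * P) := by
              simp only [Matrix.mul_assoc]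
          _ = _ := by rw [hQP, Matrix.one_mul, Matrix.mul_one]
      rw [h3, hT, Matrix.sub_apply, Matrix.single_apply_same, Matrix.single_apply_of_ne, sub_zero]
      · exact one_ne_zero
      · rintro ⟨h4, -⟩
        exact hab' h4.symm
  let E : n ≃ Fin D := Equiv.ofBijective e heb
  have hE : ∀ a, E a = e a := fun a => rfl
  let σ : n ≃ n := ⟨s, s, hs, hs⟩
  have hσ : ∀ a, σ a = s a := fun a => rfl
  have hpow : ∀ k : ℕ, (nfl_phi A ρ rh) ^ k = P' * Matrix.diagonal (fun i => l i ^ k) * Q' := by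
    intro k
    have h1 := aeval_conj (R := C) hPQ' hQP' l (Polynomial.X ^ k)
    rw [map_pow, aeval_X, ← hXd] at h1
    rw [h1]
    congr 3
    funext i
    rw [map_pow, aeval_X]
  have htrk : ∀ k : ℕ, ((nfl_phi A ρ rh) ^ k).trace = ∑ a, l (e a) ^ k := by
    intro k
    rw [hpow, Matrix.trace_mul_comm, ← Matrix.mul_assoc, hQP', Matrix.one_mul,
      Matrix.trace_diagonal]
    exact (Equiv.sum_comp E (fun i => l i ^ k)).symm
  have hswap : ∀ k : ℕ, ∑ a, l (e (s a)) ^ k = ∑ a, l (e a) ^ k := by
    intro k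
    exact Equiv.sum_comp σ (fun a => l (e a) ^ k)
  -- opposite eigenvalues
  have hopp : ∀ a, l (e (s a)) = -l (e a) := by
    intro a
    have h1 := htrk 1
    rw [pow_one, htr0 _ hh1] at h1
    simp only [pow_one] at h1
    have h2 := hswap 1
    simp only [pow_one] at h2
    have h3 : ∑ b, (l (e b) + l (e (s b))) = Fintype.card n • (l (e a) + l (e (s a))) := by
      rw [← Finset.card_univ, ← Finset.sum_const]
      exact Finset.sum_congr rfl fun b _ => hsum b a
    rw [Finset.sum_add_distrib, h2, ← h1, add_zero, nsmul_eq_mul] at h3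
    have h4 : (Fintype.card n : C) ≠ 0 := by
      have : Nonempty n := ⟨a⟩
      exact_mod_cast Fintype.card_ne_zero
    have h5 := (mul_eq_zero.1 h3.symm).resolve_left h4
    linear_combination h5
  have h1 := hswap m
  simp only [hopp] at h1
  rw [htrk]
  have h2 : ∑ a, (-l (e a)) ^ m = -∑ a, l (e a) ^ m := by
    rw [← Finset.sum_neg_distrib]
    exact Finset.sum_congr rfl fun a _ => hm.neg_pow _
  rw [h2] at h1
  have h3 : (2 : C) * ∑ a, l (e a) ^ m = 0 := by linear_combination -h1
  exact (mul_eq_zero.1 h3).resolve_left two_ne_zero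

end

end Pool.Agent.RO
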