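import Pool.Agent.Lib_helper29.RO.Proj
import Pool.Agent.Lib_helper29.RO.Fam

/-!
# Orthogonal residual image: no subgroup of finite index acts by scalars
-/

set_option autoImplicit false
set_option linter.unusedSectionVars false

namespace Pool.Agent.RO

open Matrix Pool.Agent.RF Pool.Agent.RP

section

variable {F : Type*} [Field F] {d : ℕ} (B : Matrix (Fin d) (Fin d) F)

/-- A vector orthogonal to a totally isotropic plane that is not isotropic. -/
theorem exists_anis (h2 : (2 : F) ≠ 0) (hd : 5 ≤ d) (hB : Bᵀ = B) (hdet : IsUnit B.det)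
    (u v : Fin d → F) :
    ∃ w : Fin d → F, (u ᵥ* B) ⬝ᵥ w = 0 ∧ (v ᵥ* B) ⬝ᵥ w = 0 ∧ (w ᵥ* B) ⬝ᵥ w ≠ 0 := by
  by_contra hcon
  push Not at hcon
  let T : (Fin d → F) →ₗ[F] F × F :=
    (dotProductBilin F F (u ᵥ* B)).prod (dotProductBilin F F (v ᵥ* B))
  have hT : ∀ w, T w = ((u ᵥ* B) ⬝ᵥ w, (v ᵥ* B) ⬝ᵥ w) := fun _ => rfl
  have hker : ∀ w, w ∈ LinearMap.ker T ↔ (u ᵥ* B) ⬝ᵥ w = 0 ∧ (v ᵥ* B) ⬝ᵥ w = 0 := by
    intro w
    rw [LinearMap.mem_ker, hT, Prod.mk_eq_zero]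
  set β : LinearMap.BilinForm F (Fin d → F) := Matrix.toBilin' B with hβ
  have hβa : ∀ x y, β x y = (x ᵥ* B) ⬝ᵥ y := by
    intro x y
    rw [hβ, Matrix.toBilin'_apply', Matrix.dotProduct_mulVec]
  have hnd : β.Nondegenerate :=
    LinearMap.BilinForm.nondegenerate_toBilin'_of_det_ne_zero' B hdet.ne_zero
  have hle : LinearMap.ker T ≤ β.orthogonal (LinearMap.ker T) := by
    intro y hy
    rw [LinearMap.BilinForm.mem_orthogonal_iff]
    intro x hx
    show β x y = 0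
    rw [hker] at hx hy
    have h3 := hcon (x + y) (by rw [dotProduct_add, hx.1, hy.1, add_zero])
      (by rw [dotProduct_add, hx.2, hy.2, add_zero])
    rw [Matrix.add_vecMul, add_dotProduct, dotProduct_add, dotProduct_add, O0.symm_pair B hB y x,
      hcon x hx.1 hx.2, hcon y hy.1 hy.2] at h3
    have h5 : 2 * ((x ᵥ* B) ⬝ᵥ y) = 0 := by linear_combination h3
    rw [hβa]
    exact (mul_eq_zero.1 h5).resolve_left h2
  have h1 := Submodule.finrank_mono hle
  rw [LinearMap.BilinForm.finrank_orthogonal hnd, Module.finrank_fintype_fun_eq_card,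
    Fintype.card_fin] at h1
  have h4 := LinearMap.finrank_range_add_finrank_ker T
  have h5 : Module.finrank F (LinearMap.range T) ≤ 2 := by
    have h6 := Submodule.finrank_le (LinearMap.range T)
    rw [Module.finrank_prod, Module.finrank_self] at h6
    exact h6
  rw [Module.finrank_fintype_fun_eq_card, Fintype.card_fin] at h4
  omega

end

/-- Two elements that lower a flag and do not commute. -/
theorem omega_low {k : Type*} [Field k] {p : ℕ} [Fact p.Prime] [CharP k p]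
    (hp5 : 5 ≤ p) {G : Type*} [Group G] {d : ℕ} (r : G →* Matrix (Fin d) (Fin d) k)
    (h : ContainsOmega r) : ∃ (T W : Submodule k (Fin d → k)) (x y : G), Low T W (r x) ∧
      Low T W (r y) ∧ r x * r y ≠ r y * r x := by
  classical
  obtain ⟨F, _, _, B, P, Q, hd5, hBt, hBd, ⟨u, v, hlin, huu, huv, hvv⟩, hPQ, hF⟩ := h
  have hQP : Q * P = 1 := mul_eq_one_comm.1 hPQ
  have h2 : (2 : k) ≠ 0 := by
    intro h
    have h3 : ((2 : ℕ) : k) = 0 := by exact_mod_cast h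
    rw [CharP.cast_eq_zero_iff _ p] at h3
    have := Nat.le_of_dvd (by norm_num) h3
    omega
  have h2F : (2 : F) ≠ 0 := by
    intro h
    apply h2
    have h3 := congrArg (algebraMap F k) h
    rw [map_zero, map_ofNat] at h3
    exact h3
  obtain ⟨w, huw, hvw, hww⟩ := exists_anis B h2F hd5 hBt hBd u v
  have hvu : (v ᵥ* B) ⬝ᵥ u = 0 := by rw [O0.symm_pair B hBt, huv]
  have hwu : (w ᵥ* B) ⬝ᵥ u = 0 := by rw [O0.symm_pair B hBt, huw]
  have hwv : (w ᵥ* B) ⬝ᵥ v = 0 := by rw [O0.symm_pair B hBt, hvw]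
  -- the elements
  have hE : ∀ a : Fin d → F, (a ᵥ* B) ⬝ᵥ a = 0 → (a ᵥ* B) ⬝ᵥ w = 0 → ∃ σ,
      r σ = P * (eich B a w).map (algebraMap F k) * Q := by
    intro a ha haw
    obtain ⟨A, hA, hA2⟩ := eich_mem h2F B hBt hBd a w ha haw
    obtain ⟨σ, hσ⟩ := hF A hA
    exact ⟨σ, by rw [hσ, hA2]⟩
  obtain ⟨x, hx⟩ := hE u huu huw
  obtain ⟨y, hy⟩ := hE v hvv hvw
  set ψ := algebraMap F k with hψ
  have hmv : ∀ (a b : Fin d → F), ((fun i => ψ (a i)) ⬝ᵥ (fun i => ψ (b i))) = ψ (a ⬝ᵥ b) := by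
    intro a b
    unfold dotProduct
    rw [map_sum]
    exact Finset.sum_congr rfl fun i _ => (map_mul ψ _ _).symm
  let uB : Fin d → k := fun i => ψ ((u ᵥ* B) i)
  let vB : Fin d → k := fun i => ψ ((v ᵥ* B) i)
  let wB : Fin d → k := fun i => ψ ((w ᵥ* B) i)
  let uk : Fin d → k := fun i => ψ (u i)
  let vk : Fin d → k := fun i => ψ (v i)
  let wk : Fin d → k := fun i => ψ (w i)
  -- the difference with the identity
  have hdiff : ∀ a : Fin d → F, ∀ z : Fin d → k,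
      (P * (eich B a w).map ψ * Q - 1) *ᵥ z =
        P *ᵥ ((wB ⬝ᵥ (Q *ᵥ z)) • (fun i => ψ (a i)) -
          ((fun i => ψ ((a ᵥ* B) i)) ⬝ᵥ (Q *ᵥ z)) • wk -
          (ψ ((2 : F)⁻¹ * ((w ᵥ* B) ⬝ᵥ w)) * ((fun i => ψ ((a ᵥ* B) i)) ⬝ᵥ (Q *ᵥ z))) •
            (fun i => ψ (a i))) := by
    intro a z
    have h3 : (P * (eich B a w).map ψ * Q - 1) = P * ((eich B a w).map ψ - 1) * Q := by
      rw [Matrix.mul_sub, Matrix.sub_mul, Matrix.mul_one, hPQ]
    have h4 : (eich B a w).map ψ - 1 = vecMulVec (fun i => ψ (a i)) wB -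
        vecMulVec wk (fun i => ψ ((a ᵥ* B) i)) -
        ψ ((2 : F)⁻¹ * ((w ᵥ* B) ⬝ᵥ w)) • vecMulVec (fun i => ψ (a i))
          (fun i => ψ ((a ᵥ* B) i)) := by
      ext i j
      simp only [eich, Matrix.map_apply, Matrix.sub_apply, Matrix.add_apply, Matrix.smul_apply,
        vecMulVec_apply, smul_eq_mul, map_sub, map_add, map_mul, wB, wk]
      have h5 : ψ ((1 : Matrix (Fin d) (Fin d) F) i j) = (1 : Matrix (Fin d) (Fin d) k) i j := by
        rw [Matrix.one_apply, Matrix.one_apply]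
        split_ifs
        · exact map_one ψ
        · exact map_zero ψ
      rw [h5]
      ring
    rw [h3, h4, ← Matrix.mulVec_mulVec, ← Matrix.mulVec_mulVec]
    congr 1
    rw [Matrix.sub_mulVec, Matrix.sub_mulVec, Matrix.smul_mulVec, vecMulVec_mulVec,
      vecMulVec_mulVec, vecMulVec_mulVec, op_smul_eq_smul, op_smul_eq_smul, op_smul_eq_smul,
      smul_smul]
  let W : Submodule k (Fin d → k) :=
    { carrier := {z | uB ⬝ᵥ (Q *ᵥ z) = 0 ∧ vB ⬝ᵥ (Q *ᵥ z) = 0}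
      add_mem' := by
        intro a b ha hb
        show uB ⬝ᵥ (Q *ᵥ (a + b)) = 0 ∧ vB ⬝ᵥ (Q *ᵥ (a + b)) = 0
        rw [Matrix.mulVec_add, dotProduct_add, dotProduct_add, ha.1, ha.2, hb.1, hb.2, add_zero]
        exact ⟨rfl, rfl⟩
      zero_mem' := by
        show uB ⬝ᵥ (Q *ᵥ 0) = 0 ∧ vB ⬝ᵥ (Q *ᵥ 0) = 0
        rw [Matrix.mulVec_zero, dotProduct_zero, dotProduct_zero]
        exact ⟨rfl, rfl⟩
      smul_mem' := by
        intro c a ha
        show uB ⬝ᵥ (Q *ᵥ (c • a)) = 0 ∧ vB ⬝ᵥ (Q *ᵥ (c • a)) = 0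
        rw [Matrix.mulVec_smul, dotProduct_smul, dotProduct_smul, ha.1, ha.2, smul_zero]
        exact ⟨rfl, rfl⟩ }
  have hW : ∀ z, z ∈ W ↔ uB ⬝ᵥ (Q *ᵥ z) = 0 ∧ vB ⬝ᵥ (Q *ᵥ z) = 0 := fun _ => Iff.rfl
  let T : Submodule k (Fin d → k) := Submodule.span k {P *ᵥ uk, P *ᵥ vk}
  have hT : ∀ z ∈ T, wB ⬝ᵥ (Q *ᵥ z) = 0 ∧ uB ⬝ᵥ (Q *ᵥ z) = 0 ∧ vB ⬝ᵥ (Q *ᵥ z) = 0 := by
    intro z hz
    obtain ⟨a, b, rfl⟩ := Submodule.mem_span_pair.1 hz
    have hQ : Q *ᵥ (a • P *ᵥ uk + b • P *ᵥ vk) = a • uk + b • vk := by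
      rw [Matrix.mulVec_add, Matrix.mulVec_smul, Matrix.mulVec_smul, Matrix.mulVec_mulVec,
        Matrix.mulVec_mulVec, hQP, Matrix.one_mulVec, Matrix.one_mulVec]
    rw [hQ]
    simp only [dotProduct_add, dotProduct_smul, uB, vB, wB, uk, vk, hmv, huu, huv, hvu, hvv, hwu,
      hwv, map_zero, smul_zero, add_zero]
    exact ⟨trivial, trivial, trivial⟩
  have hlow : ∀ a : Fin d → F, (a ᵥ* B) ⬝ᵥ a = 0 → (a ᵥ* B) ⬝ᵥ w = 0 → (u ᵥ* B) ⬝ᵥ a = 0 →
      (v ᵥ* B) ⬝ᵥ a = 0 → P *ᵥ (fun i => ψ (a i)) ∈ T →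
      (∀ z, uB ⬝ᵥ (Q *ᵥ z) = 0 ∧ vB ⬝ᵥ (Q *ᵥ z) = 0 →
        (fun i => ψ ((a ᵥ* B) i)) ⬝ᵥ (Q *ᵥ z) = 0) →
      Low T W (P * (eich B a w).map ψ * Q) := by
    intro a _ _ hua hva haT haz
    refine ⟨fun z => ?_, fun z hz => ?_, fun z hz => ?_⟩
    · rw [hdiff, hW, Matrix.mulVec_mulVec, hQP, Matrix.one_mulVec]
      simp only [dotProduct_sub, dotProduct_smul, uB, vB, wk, hmv, huw, hvw, hua, hva, map_zero,
        smul_zero, sub_zero]
      exact ⟨trivial, trivial⟩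
    · rw [hdiff, haz z ((hW z).1 hz), mul_zero, zero_smul, zero_smul, sub_zero, sub_zero,
        Matrix.mulVec_smul]
      exact T.smul_mem _ haT
    · obtain ⟨h3, h4, h5⟩ := hT z hz
      rw [hdiff, haz z ⟨h4, h5⟩, h3, mul_zero, zero_smul, zero_smul, sub_zero, sub_zero,
        Matrix.mulVec_zero]
  refine ⟨T, W, x, y, ?_, ?_, ?_⟩
  · rw [hx]
    exact hlow u huu huw huu hvu (Submodule.subset_span (Set.mem_insert _ _)) fun z hz => hz.1
  · rw [hy]
    exact hlow v hvv hvw huv hvv (Submodule.subset_span (Set.mem_insert_of_mem _ rfl))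
      fun z hz => hz.2
  · intro hcomm
    rw [hx, hy] at hcomm
    have h3 : (eich B u w).map ψ * (eich B v w).map ψ =
        (eich B v w).map ψ * (eich B u w).map ψ := by
      have key : ∀ X Y : Matrix (Fin d) (Fin d) k,
          X * Y = Q * (P * X * Q * (P * Y * Q)) * P := by
        intro X Y
        calc X * Y = (Q * P) * X * (Q * P) * Y * (Q * P) := by rw [hQP, one_mul, mul_one, mul_one]
          _ = _ := by simp only [Matrix.mul_assoc]
      rw [key, hcomm, ← key]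
    rw [← Matrix.map_mul, ← Matrix.map_mul] at h3
    have h4 : eich B u w * eich B v w = eich B v w * eich B u w := by
      ext i j
      have h5 := congrFun (congrFun h3 i) j
      rw [Matrix.map_apply, Matrix.map_apply] at h5
      exact ψ.injective h5
    -- compute
    have h5 : eich B u w * eich B v w - eich B v w * eich B u w =
        ((w ᵥ* B) ⬝ᵥ w) • (vecMulVec v (u ᵥ* B) - vecMulVec u (v ᵥ* B)) := by
      unfold eich
      set q := (2 : F)⁻¹ * ((w ᵥ* B) ⬝ᵥ w)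
      simp only [add_mul, sub_mul, mul_add, mul_sub, mul_one, one_mul, smul_mul_assoc,
        mul_smul_comm, vecMulVec_mul_vecMulVec, huv, hvu, huw, hvw, hwu, hwv, zero_smul,
        vecMulVec_zero, smul_zero, sub_zero, vecMulVec_smul]
      module
    rw [h4, sub_self] at h5
    have h6 := (smul_eq_zero.1 h5.symm).resolve_left hww
    have huB : u ᵥ* B ≠ 0 := by
      intro h
      apply hlin.ne_zero 0
      have h7 : (u ᵥ* B) ᵥ* B⁻¹ = u := by
        rw [Matrix.vecMul_vecMul, Matrix.mul_nonsing_inv _ hBd, Matrix.vecMul_one]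
      show u = 0
      rw [← h7, h, Matrix.zero_vecMul]
    obtain ⟨j, hj⟩ := Function.ne_iff.1 huB
    have hj' : (u ᵥ* B) j ≠ 0 := hj
    have h7 : v = ((v ᵥ* B) j * ((u ᵥ* B) j)⁻¹) • u := by
      ext i
      have h8 := congrFun (congrFun h6 i) j
      rw [Matrix.sub_apply, vecMulVec_apply, vecMulVec_apply, Matrix.zero_apply] at h8
      rw [Pi.smul_apply, smul_eq_mul]
      field_simp
      linear_combination h8
    rw [LinearIndependent.pair_iff] at hlin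
    have h8 := hlin ((v ᵥ* B) j * ((u ᵥ* B) j)⁻¹) (-1) (by
      rw [neg_one_smul, ← h7, add_neg_cancel])
    exact one_ne_zero (neg_eq_zero.1 h8.2)

section

variable {G : Type*} [Group G] [TopologicalSpace G] [IsTopologicalGroup G] [CompactSpace G]
  [TotallyDisconnectedSpace G] {p : ℕ} [hp : Fact p.Prime]

/-- Orthogonal residual image in dimension less than `p`: no open subgroup acts by scalars. -/
theorem omega_nonscalar (hp5 : 5 ≤ p) {d : ℕ} (hd : d < p)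
    (ρ : G →* Matrix (Fin d) (Fin d) ℂ_[p])
    (r : G →* Matrix (Fin d) (Fin d) (AlgebraicClosure (ZMod p)))
    (h : ContainsOmega r)
    (htr : ∀ g, ∃ t : ℤ, ‖(ρ g).trace - t‖ < 1 ∧
      (r g).trace = (t : AlgebraicClosure (ZMod p)))
    (N : Subgroup G) (hN : IsOpen (N : Set G)) : ∃ h ∈ N, ∀ c : ℂ_[p], ρ h ≠ c • 1 := by
  obtain ⟨red, hred0, -⟩ := res_exists p (AlgebraicClosure (ZMod p))
  have hfi : N.FiniteIndex :=
    haveI := N.quotient_finite_of_isOpen hN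
    Subgroup.finiteIndex_of_finite_quotient
  obtain ⟨T, W, x, y, hx, hy, hxy⟩ := omega_low (p := p) hp5 r h
  have hd0 : 0 < d := by
    obtain ⟨F, _, _, B, P, Q, hd5, -⟩ := h
    omega
  exact nonscalar_of_low (p := p) (by omega) hd0 hd ρ (omega_span (p := p) hp5 r h)
    (rd_of_int ρ r htr red hred0) hx hy hxy N

end

end Pool.Agent.RO
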