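import Pool.Agent.Lib_helper28.RP.Proj
import Pool.Agent.Lib_helper29.RO.O0

/-!
# Orthogonal residual image: no subgroup of finite index acts by scalars
-/

set_option autoImplicit false
set_option linter.unusedSectionVars false

namespace Pool.Agent.RO

open Matrix Pool.Agent.RF

section flag

variable {k : Type*} [Field k] {n : Type*} [Fintype n] [DecidableEq n]

/-- `X - 1` lowers the flag `T ≤ W`. -/
def Low (T W : Submodule k (n → k)) (X : Matrix n n k) : Prop :=
  (∀ v, (X - 1) *ᵥ v ∈ W) ∧ (∀ v ∈ W, (X - 1) *ᵥ v ∈ T) ∧ ∀ v ∈ T, (X - 1) *ᵥ v = 0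

theorem low_one (T W : Submodule k (n → k)) : Low T W (1 : Matrix n n k) := by
  refine ⟨fun v => ?_, fun v _ => ?_, fun v _ => ?_⟩
  · rw [sub_self, Matrix.zero_mulVec]
    exact W.zero_mem
  · rw [sub_self, Matrix.zero_mulVec]
    exact T.zero_mem
  · rw [sub_self, Matrix.zero_mulVec]

theorem low_mul {T W : Submodule k (n → k)} {X Y : Matrix n n k} (hX : Low T W X)
    (hY : Low T W Y) : Low T W (X * Y) := by
  have h1 : ∀ v, (X * Y - 1) *ᵥ v = (X - 1) *ᵥ ((Y - 1) *ᵥ v) + (X - 1) *ᵥ v + (Y - 1) *ᵥ v := by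
    intro v
    rw [Matrix.mulVec_mulVec, ← Matrix.add_mulVec, ← Matrix.add_mulVec]
    congr 1
    noncomm_ring
  refine ⟨fun v => ?_, fun v hv => ?_, fun v hv => ?_⟩
  · rw [h1]
    exact W.add_mem (W.add_mem (hX.1 _) (hX.1 _)) (hY.1 _)
  · rw [h1, hX.2.2 _ (hY.2.1 v hv), zero_add]
    exact T.add_mem (hX.2.1 v hv) (hY.2.1 v hv)
  · rw [h1, hY.2.2 v hv, Matrix.mulVec_zero, hX.2.2 v hv, add_zero, add_zero]

theorem low_cube {T W : Submodule k (n → k)} {X : Matrix n n k} (hX : Low T W X) :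
    (X - 1) ^ 3 = 0 := by
  apply Matrix.toLin'.injective
  apply LinearMap.ext
  intro v
  have h3 : (X - 1) ^ 3 = (X - 1) * ((X - 1) * (X - 1)) := by noncomm_ring
  rw [h3, Matrix.toLin'_mul_apply, Matrix.toLin'_mul_apply, Matrix.toLin'_apply,
    Matrix.toLin'_apply, Matrix.toLin'_apply, hX.2.2 _ (hX.2.1 _ (hX.1 v)), map_zero,
    LinearMap.zero_apply]

theorem low_inv {T W : Submodule k (n → k)} {X X' : Matrix n n k}
    (hX : Low T W X) (hXX' : X' * X = 1) : Low T W X' := by
  have h3 := low_cube hX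
  have h4 : X' = 1 - (X - 1) + (X - 1) * (X - 1) := by
    have h5 : X * (1 - (X - 1) + (X - 1) * (X - 1)) = 1 := by
      calc X * (1 - (X - 1) + (X - 1) * (X - 1)) = 1 + (X - 1) ^ 3 := by noncomm_ring
        _ = 1 := by rw [h3, add_zero]
    calc X' = X' * (X * (1 - (X - 1) + (X - 1) * (X - 1))) := by rw [h5, mul_one]
      _ = _ := by rw [← mul_assoc, hXX', one_mul]
  have h1 : ∀ v, (X' - 1) *ᵥ v = (X - 1) *ᵥ ((X - 1) *ᵥ v) - (X - 1) *ᵥ v := by
    intro v
    rw [Matrix.mulVec_mulVec, ← Matrix.sub_mulVec, h4]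
    congr 1
    noncomm_ring
  refine ⟨fun v => ?_, fun v hv => ?_, fun v hv => ?_⟩
  · rw [h1]
    exact W.sub_mem (hX.1 _) (hX.1 _)
  · rw [h1, hX.2.2 _ (hX.2.1 v hv), zero_sub]
    exact T.neg_mem (hX.2.1 v hv)
  · rw [h1, hX.2.2 v hv, Matrix.mulVec_zero, sub_zero]

end flag

/-- Elements that lower a flag commute. -/
theorem low_comm {E : Type*} [Field E] [IsAlgClosed E] [CharZero E] {p : ℕ}
    [hp : Fact p.Prime] (hp3 : 3 ≤ p) {k : Type*} [Field k] [CharP k p] {d : ℕ} (hd : d < p)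
    {G : Type*} [Group G] (B : G →* Matrix (Fin d) (Fin d) E) (hfin : B.ker.FiniteIndex)
    (r : G →* Matrix (Fin d) (Fin d) k)
    (hscal : ∀ h, B h = 1 → ∃ t : k, r h = t • 1) {T W : Submodule k (Fin d → k)}
    {x y : G} (hx : Low T W (r x)) (hy : Low T W (r y)) : r x * r y = r y * r x := by
  classical
  rcases Nat.eq_zero_or_pos d with hd0 | hd0
  · subst hd0
    exact Subsingleton.elim _ _
  have hne : Nonempty (Fin d) := ⟨⟨0, hd0⟩⟩
  let H₀ : Subgroup G :=
    { carrier := {h | Low T W (r h)}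
      one_mem' := by
        show Low T W (r 1)
        rw [map_one]
        exact low_one T W
      mul_mem' := by
        intro a b ha hb
        show Low T W (r (a * b))
        rw [map_mul]
        exact low_mul ha hb
      inv_mem' := by
        intro a ha
        show Low T W (r a⁻¹)
        exact low_inv ha (by rw [← map_mul, inv_mul_cancel, map_one]) }
  have hpow : ∀ h : H₀, (r.comp H₀.subtype) h ^ p = 1 := by
    rintro ⟨h, hh⟩
    change (r h) ^ p = 1
    have h3 := low_cube hh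
    have hchar : CharP (Matrix (Fin d) (Fin d) k) p := inferInstance
    have h4 : (r h) ^ p = ((r h - 1) + 1) ^ p := by rw [sub_add_cancel]
    rw [h4, add_pow_char_of_commute p (Commute.one_right (r h - 1)), one_pow]
    obtain ⟨m, rfl⟩ : ∃ m, p = 3 + m := ⟨p - 3, by omega⟩
    rw [pow_add, h3, zero_mul, zero_add]
  have hker : (B.comp H₀.subtype).ker ≤ (r.comp H₀.subtype).ker := by
    rintro ⟨h, hh⟩ hB
    rw [MonoidHom.mem_ker] at hB ⊢
    change B h = 1 at hB
    change r h = 1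
    obtain ⟨t, ht⟩ := hscal h hB
    have h3 := low_cube hh
    have h4 : r h - 1 = (t - 1) • 1 := by rw [ht, sub_smul, one_smul]
    rw [h4, _root_.smul_pow, one_pow] at h3
    have h5 := congrFun (congrFun h3 ⟨0, hd0⟩) ⟨0, hd0⟩
    rw [Matrix.smul_apply, Matrix.one_apply_eq, Matrix.zero_apply, smul_eq_mul, mul_one] at h5
    have h6 : t - 1 = 0 := pow_eq_zero_iff (by norm_num) |>.1 h5
    rw [ht, sub_eq_zero.1 h6, one_smul]
  have hfinH : (B.comp H₀.subtype).ker.FiniteIndex := by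
    have h1 : (B.comp H₀.subtype).ker = B.ker.subgroupOf H₀ := by
      ext h
      rfl
    rw [h1]
    infer_instance
  have hcomm := comm_of_finite hd (B.comp H₀.subtype) hfinH (r.comp H₀.subtype) hpow hker
    ⟨x, hx⟩ ⟨y, hy⟩
  have : r (x * y) = r (y * x) := hcomm
  rwa [map_mul, map_mul] at this

/-- If two elements that lower a flag do not commute in the residual representation and the
dimension is less than `p`, then no subgroup of finite index acts by scalars. -/
theorem nonscalar_of_low {E : Type*} [Field E] [IsAlgClosed E] [CharZero E] {p : ℕ}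
    [hp : Fact p.Prime] (hp3 : 3 ≤ p) {k : Type*} [Field k] [CharP k p] {d : ℕ} (hd0 : 0 < d)
    (hd : d < p)
    {G : Type*} [Group G] {A : ValuationSubring E} {red : A →+* k}
    (ρ : G →* Matrix (Fin d) (Fin d) E) {r : G →* Matrix (Fin d) (Fin d) k}
    (hspan : Submodule.span k (Set.range r) = ⊤)
    (htr : Rd A red ρ r 1 1) {T W : Submodule k (Fin d → k)}
    {x y : G} (hx : Low T W (r x)) (hy : Low T W (r y)) (hxy : r x * r y ≠ r y * r x)
    (N : Subgroup G) [hN : N.FiniteIndex] :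
    ∃ h ∈ N, ∀ c : E, ρ h ≠ c • 1 := by
  classical
  by_contra hcon
  push Not at hcon
  have hfin := covRep_finite hd0 ρ N hcon
  -- `d` is a unit
  have hdu : ((d : E))⁻¹ ∈ A := by
    have hpn : ¬ IsUnit ((p : ℕ) : A) := by
      intro hu
      have h1 := hu.map red
      rw [map_natCast, CharP.cast_eq_zero] at h1
      exact not_isUnit_zero h1
    have hdU : IsUnit ((d : ℕ) : A) := by
      by_contra hdn
      have hcop : Nat.Coprime d p :=
        (Nat.coprime_of_lt_prime hd0.ne' hd hp.out).symm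
      have h1 : IsCoprime (d : ℤ) (p : ℤ) := Nat.isCoprime_iff_coprime.mpr hcop
      obtain ⟨a, b, hab⟩ := h1
      have h2 : ((a : A)) * ((d : ℕ) : A) + ((b : A)) * ((p : ℕ) : A) = 1 := by
        have := congrArg (fun z : ℤ => (z : A)) hab
        push_cast at this
        exact this
      have h3 : ((d : ℕ) : A) ∈ IsLocalRing.maximalIdeal A := hdn
      have h4 : ((p : ℕ) : A) ∈ IsLocalRing.maximalIdeal A := hpn
      have h5 : (1 : A) ∈ IsLocalRing.maximalIdeal A := by
        rw [← h2]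
        exact Ideal.add_mem _ (Ideal.mul_mem_left _ _ h3) (Ideal.mul_mem_left _ _ h4)
      exact (Ideal.ne_top_iff_one _).mp (IsLocalRing.maximalIdeal.isMaximal A).ne_top h5
    obtain ⟨u, hu⟩ := hdU.exists_right_inv
    have h1 : (d : E) * (u : E) = 1 := by
      have := congrArg (fun z : A => (z : E)) hu
      simpa using this
    have h2 : ((d : E))⁻¹ = (u : E) := inv_eq_of_mul_eq_one_right h1
    rw [h2]
    exact u.2
  obtain ⟨x', hx'⟩ := covPr_surj hd0.ne' ρ x
  obtain ⟨y', hy'⟩ := covPr_surj hd0.ne' ρ y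
  apply hxy
  have hx2 : (r.comp (covPr ρ)) x' = r x := by
    show r (covPr ρ x') = r x
    rw [hx']
  have hy2 : (r.comp (covPr ρ)) y' = r y := by
    show r (covPr ρ y') = r y
    rw [hy']
  rw [← hx2, ← hy2]
  refine low_comm hp3 hd (covRep ρ) hfin (r.comp (covPr ρ)) (fun x hx => ?_)
    (x := x') (y := y') (by rw [hx2]; exact hx) (by rw [hy2]; exact hy)
  -- the elements that act trivially
  set c : E := ((x : G × Eˣ).2 : E) with hc
  have hc0 : c ≠ 0 := ((x : G × Eˣ).2).ne_zero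
  have h1 : ρ (covPr ρ x) = c⁻¹ • 1 := by
    have h2 : c • ρ (covPr ρ x) = 1 := hx
    rw [← h2, smul_smul, inv_mul_cancel₀ hc0, one_smul]
  have hcA : c⁻¹ ∈ A := by
    obtain ⟨s, hs, -⟩ := htr (covPr ρ x)
    rw [one_mul, h1, trace_smul, trace_one, Fintype.card_fin, smul_eq_mul] at hs
    have h2 : c⁻¹ = (s : E) * ((d : E))⁻¹ := by
      rw [hs, mul_assoc, mul_inv_cancel₀ (by exact_mod_cast hd0.ne'), mul_one]
    rw [h2]
    exact A.mul_mem _ _ s.2 hdu
  let t : A := ⟨c⁻¹, hcA⟩
  refine ⟨red t, ?_⟩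
  have h4 : Rd A red ρ r (ρ (covPr ρ x)) (r (covPr ρ x)) := by
    intro y
    obtain ⟨s, hs1, hs2⟩ := htr (covPr ρ x * y)
    refine ⟨s, ?_, ?_⟩
    · rw [hs1, one_mul, map_mul]
    · rw [hs2, one_mul, map_mul]
  have h5 := rd_smul t htr
  have h6 : Rd A red ρ r 0 (r (covPr ρ x) - red t • 1) := by
    have h7 := rd_add h4 (rd_smul (-1 : A) h5)
    have e1 : ρ (covPr ρ x) + ((-1 : A) : E) • (((t : A) : E) •
        (1 : Matrix (Fin d) (Fin d) E)) = 0 := by
      have e2 : ((-1 : A) : E) = -1 := rfl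
      rw [e2, h1, neg_smul, one_smul]
      exact add_neg_cancel _
    rw [e1, map_neg, map_one, neg_smul, one_smul, ← sub_eq_add_neg] at h7
    exact h7
  exact sub_eq_zero.mp (rd_eq_zero hspan h6)

end Pool.Agent.RO
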