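import Pool.Agent.Lib_helper29.RO.Lift
import Pool.Agent.Lib_helper29.RO.Blocks
import Pool.Agent.Lib_helper29.RP.Single

/-!
# Stable Lie algebras of a representation whose reduction contains an orthogonal group
-/

set_option autoImplicit false
set_option linter.unusedSectionVars false

namespace Pool.Agent.RO

open Matrix Pool.Agent.NF Pool.Agent.RF Pool.Agent.RP Polynomial

section

variable {C : Type*} [Field C] [IsAlgClosed C] [CharZero C] {A : ValuationSubring C} {Γ : Type*}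
  [Group Γ] {D : ℕ} {ρ : Γ →* Matrix (Fin D) (Fin D) C}
  {ρ' : Γ →* Matrix (Fin D) (Fin D) (IsLocalRing.ResidueField A)}

/-- Odd power traces vanish on the whole space if they vanish on the lifts of one matrix. -/
theorem odd_traces {p : ℕ} [Fact p.Prime] [CharP (IsLocalRing.ResidueField A) p]
    (hspan : Submodule.span (IsLocalRing.ResidueField A) (Set.range ρ') = ⊤)
    (htr : ∀ γ, ∃ t : A, (t : C) = (ρ γ).trace ∧ IsLocalRing.residue A t = (ρ' γ).trace)
    (S : Submodule C (Matrix (Fin D) (Fin D) C)) {Y : Matrix (Fin D) (Fin D)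
      (IsLocalRing.ResidueField A)} (hY : Y ∈ redS A ρ ρ' S) (m : ℕ)
    (h : ∀ r : MonoidAlgebra A Γ, nfl_phi A ρ r ∈ S → nfl_psi A ρ' r = Y →
      ((nfl_phi A ρ r) ^ m).trace = 0) (Z : Matrix (Fin D) (Fin D) C) (hZ : Z ∈ S) :
    (Z ^ m).trace = 0 := by
  classical
  obtain ⟨r0, h01, h02⟩ := hY
  by_cases hZ0 : Z = 0
  · rw [hZ0]
    rcases Nat.eq_zero_or_pos m with hm | hm
    · subst hm
      have h1 := h r0 h01 h02
      rw [pow_zero] at h1 ⊢
      exact h1
    · rw [zero_pow hm.ne', Matrix.trace_zero]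
  obtain ⟨c, z, hc, hz1, hz2⟩ := exists_scale hspan htr hZ0
  have hp0 : (p : C) ≠ 0 := by
    exact_mod_cast (Fact.out : p.Prime).ne_zero
  -- the polynomial
  let M : Matrix (Fin D) (Fin D) C[X] :=
    (X : C[X]) • (nfl_phi A ρ r0).map Polynomial.C + (c • Z).map Polynomial.C
  have hM : ∀ δ : C, ((M ^ m).trace).eval δ = ((δ • nfl_phi A ρ r0 + c • Z) ^ m).trace := by
    intro δ
    have h1 : ((M ^ m).map (Polynomial.evalRingHom δ)) = (δ • nfl_phi A ρ r0 + c • Z) ^ m := by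
      rw [← RingHom.mapMatrix_apply, map_pow]
      congr 1
      ext i j
      simp [M, mul_comm (nfl_phi A ρ r0 i j) δ]
    rw [← h1]
    unfold Matrix.trace
    rw [Polynomial.eval_finsetSum]
    rfl
  have hroots : ∀ k : ℕ, 0 < k → ((M ^ m).trace).eval (((p : C) ^ k)⁻¹) = 0 := by
    intro k hk
    rw [hM]
    have hpk : ((p : C) ^ k) ≠ 0 := pow_ne_zero _ hp0
    have h2 := h (r0 + ((p : A) ^ k) • z) (by
      rw [map_add, map_smul, nfl_smulMC, hz1]
      exact S.add_mem h01 (S.smul_mem _ (S.smul_mem _ hZ))) (by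
      rw [map_add, map_smul, nfl_smulMK, map_pow, map_natCast, CharP.cast_eq_zero, zero_pow hk.ne',
        zero_smul, add_zero, h02])
    rw [map_add, map_smul, nfl_smulMC, hz1] at h2
    have h3 : (((p : A) ^ k : A) : C) = (p : C) ^ k := by
      simp
    rw [h3] at h2
    have h4 : ((p : C) ^ k)⁻¹ • nfl_phi A ρ r0 + c • Z =
        ((p : C) ^ k)⁻¹ • (nfl_phi A ρ r0 + (p : C) ^ k • c • Z) := by
      rw [smul_add, smul_smul _ ((p : C) ^ k), inv_mul_cancel₀ hpk, one_smul]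
    rw [h4, _root_.smul_pow, Matrix.trace_smul, h2, smul_zero]
  have hzero : (M ^ m).trace = 0 := by
    apply Polynomial.eq_zero_of_infinite_isRoot
    refine Set.Infinite.mono (s := Set.range fun k : ℕ => ((p : C) ^ (k + 1))⁻¹) ?_ ?_
    · rintro _ ⟨k, rfl⟩
      exact hroots (k + 1) (Nat.succ_pos k)
    · apply Set.infinite_range_of_injective
      intro a b hab
      have h5 : (p : C) ^ (a + 1) = (p : C) ^ (b + 1) := inv_injective hab
      have h6 : p ^ (a + 1) = p ^ (b + 1) := by exact_mod_cast h5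
      have h7 := Nat.pow_right_injective (Fact.out : p.Prime).two_le h6
      omega
  have h1 := hM 0
  rw [hzero, Polynomial.eval_zero, zero_smul, zero_add, _root_.smul_pow, Matrix.trace_smul,
    smul_eq_mul] at h1
  exact (mul_eq_zero.1 h1.symm).resolve_left (pow_ne_zero _ hc)

/-- **One representation, orthogonal residual image.** -/
theorem omega_big {p : ℕ} [Fact p.Prime] (hp5 : 5 ≤ p) [CharP (IsLocalRing.ResidueField A) p]
    [IsAlgClosed (IsLocalRing.ResidueField A)]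
    (hpD : ¬ p ∣ D) (hsp : ContainsOmega ρ')
    (hspan : Submodule.span (IsLocalRing.ResidueField A) (Set.range ρ') = ⊤)
    (htr : ∀ γ, ∃ t : A, (t : C) = (ρ γ).trace ∧ IsLocalRing.residue A t = (ρ' γ).trace)
    (hint : ∀ (r : MonoidAlgebra A Γ) (c : C), (nfl_phi A ρ r).charpoly.IsRoot c → c ∈ A)
    (hN1 : ¬ SelfDual ρ) (L : Submodule C (Matrix (Fin D) (Fin D) C))
    (hbr : ∀ x ∈ L, ∀ y ∈ L, x * y - y * x ∈ L)
    (hconj : ∀ γ, ∀ x ∈ L, ρ γ * x * ρ γ⁻¹ ∈ L) (hns : ∃ x ∈ L, ∀ c : C, x ≠ c • 1)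
    (z : Matrix (Fin D) (Fin D) C) (hz : z.trace = 0) : ∃ x ∈ L, ∃ c : C, x = z + c • 1 := by
  classical
  obtain ⟨F, _, _, B, P, Q, hd5, hBt, hBd, ⟨u₀, v₀, hlin, hu₀, -, -⟩, hPQ, hF⟩ := hsp
  have hiso : ∃ u : Fin D → F, u ≠ 0 ∧ (u ᵥ* B) ⬝ᵥ u = 0 := ⟨u₀, hlin.ne_zero 0, hu₀⟩
  have hQP : Q * P = 1 := mul_eq_one_comm.1 hPQ
  have hinf : Infinite (IsLocalRing.ResidueField A) := IsAlgClosed.instInfinite
  have h2 : (2 : IsLocalRing.ResidueField A) ≠ 0 := by
    intro h
    have h3 : ((2 : ℕ) : IsLocalRing.ResidueField A) = 0 := by exact_mod_cast h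
    rw [CharP.cast_eq_zero_iff _ p] at h3
    have := Nat.le_of_dvd (by norm_num) h3
    omega
  have h2F : (2 : F) ≠ 0 := by
    intro h
    apply h2
    have h3 := congrArg (algebraMap F (IsLocalRing.ResidueField A)) h
    rw [map_zero, map_ofNat] at h3
    exact h3
  have hDk : ((D : ℕ) : IsLocalRing.ResidueField A) ≠ 0 := by
    rw [Ne, CharP.cast_eq_zero_iff _ p]
    exact hpD
  have hD0 : (D : C) ≠ 0 := by
    have : D ≠ 0 := by
      rintro rfl
      exact hpD (dvd_zero p)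
    exact_mod_cast this
  set Bk : Matrix (Fin D) (Fin D) (IsLocalRing.ResidueField A) :=
    B.map (algebraMap F (IsLocalRing.ResidueField A)) with hBk
  have hBkt : Bkᵀ = Bk := by
    rw [hBk, ← Matrix.transpose_map, hBt]
  have hBkd : IsUnit Bk.det := by
    have : Bk.det = algebraMap F (IsLocalRing.ResidueField A) B.det := by
      rw [hBk]
      exact ((algebraMap F (IsLocalRing.ResidueField A)).map_det B).symm
    rw [this]
    exact hBd.map _
  -- a nonzero matrix of trace zero is not scalar, over the residue field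
  have hnsk : ∀ Y : Matrix (Fin D) (Fin D) (IsLocalRing.ResidueField A), Y ≠ 0 → Y.trace = 0 →
      ∀ l : IsLocalRing.ResidueField A, Y ≠ l • 1 := by
    intro Y hY0 hYt l hl
    rw [hl, Matrix.trace_smul, Matrix.trace_one, Fintype.card_fin, smul_eq_mul] at hYt
    rcases mul_eq_zero.1 hYt with h3 | h3
    · apply hY0
      rw [hl, h3, zero_smul]
    · exact hDk h3
  -- the traceless part
  let T : Matrix (Fin D) (Fin D) C →ₗ[C] Matrix (Fin D) (Fin D) C :=
    { toFun := fun x => x - ((D : C)⁻¹ * x.trace) • 1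
      map_add' := fun x y => by
        rw [Matrix.trace_add, mul_add, add_smul]
        abel
      map_smul' := fun c x => by
        rw [Matrix.trace_smul, smul_eq_mul, RingHom.id_apply, smul_sub, smul_smul]
        congr 2
        ring }
  have hT : ∀ x, T x = x - ((D : C)⁻¹ * x.trace) • 1 := fun _ => rfl
  have hTt : ∀ x, (T x).trace = 0 := by
    intro x
    rw [hT, Matrix.trace_sub, Matrix.trace_smul, Matrix.trace_one, Fintype.card_fin, smul_eq_mul]
    field_simp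
    ring
  have hinv' : ∀ γ : Γ, ρ γ * ρ γ⁻¹ = 1 := fun γ => by rw [← map_mul, mul_inv_cancel, map_one]
  have hinv : ∀ γ : Γ, ρ γ⁻¹ * ρ γ = 1 := fun γ => by rw [← map_mul, inv_mul_cancel, map_one]
  set L0 := L.map T with hL0
  have hbr0 : ∀ x ∈ L0, ∀ y ∈ L0, x * y - y * x ∈ L0 := by
    rintro _ ⟨x, hx, rfl⟩ _ ⟨y, hy, rfl⟩
    refine ⟨x * y - y * x, hbr x hx y hy, ?_⟩
    have h3 : (x * y - y * x).trace = 0 := by
      rw [Matrix.trace_sub, Matrix.trace_mul_comm, sub_self]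
    rw [hT, h3, mul_zero, zero_smul, sub_zero, hT, hT]
    generalize ((D : C)⁻¹ * x.trace) = a
    generalize ((D : C)⁻¹ * y.trace) = b
    simp only [sub_mul, mul_sub, smul_mul_assoc, mul_smul_comm, one_mul, mul_one]
    module
  have hconj0 : ∀ γ, ∀ x ∈ L0, ρ γ * x * ρ γ⁻¹ ∈ L0 := by
    rintro γ _ ⟨x, hx, rfl⟩
    refine ⟨ρ γ * x * ρ γ⁻¹, hconj γ x hx, ?_⟩
    have h3 : (ρ γ * x * ρ γ⁻¹).trace = x.trace := by
      rw [Matrix.trace_mul_comm, ← mul_assoc, hinv, one_mul]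
    rw [hT, h3, hT, mul_sub, sub_mul, mul_smul_comm, mul_one, smul_mul_assoc, hinv']
  have htr0 : ∀ x ∈ L0, x.trace = 0 := by
    rintro _ ⟨x, hx, rfl⟩
    exact hTt x
  have hne0 : L0 ≠ ⊥ := by
    obtain ⟨x, hx, hxs⟩ := hns
    rw [Submodule.ne_bot_iff]
    refine ⟨T x, ⟨x, hx, rfl⟩, ?_⟩
    rw [hT, sub_ne_zero]
    exact hxs _
  -- spaces stable under conjugation contain the orthogonal Lie algebra
  let f : Matrix (Fin D) (Fin D) (IsLocalRing.ResidueField A) →ₗ[IsLocalRing.ResidueField A]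
      Matrix (Fin D) (Fin D) (IsLocalRing.ResidueField A) :=
    { toFun := fun Y => P * Y * Q
      map_add' := fun X₁ X₂ => by rw [Matrix.mul_add, Matrix.add_mul]
      map_smul' := fun c X₁ => by rw [Matrix.mul_smul, Matrix.smul_mul, RingHom.id_apply] }
  have hback : ∀ X : Matrix (Fin D) (Fin D) (IsLocalRing.ResidueField A),
      P * (Q * X * P) * Q = X := by
    intro X
    calc P * (Q * X * P) * Q = (P * Q) * X * (P * Q) := by simp only [Matrix.mul_assoc]
      _ = X := by rw [hPQ, one_mul, mul_one]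
  have hmulPQ : ∀ X₁ X₂ : Matrix (Fin D) (Fin D) (IsLocalRing.ResidueField A),
      P * (X₁ * X₂) * Q = (P * X₁ * Q) * (P * X₂ * Q) := by
    intro X₁ X₂
    calc P * (X₁ * X₂) * Q = P * (X₁ * 1 * X₂) * Q := by rw [Matrix.mul_one]
      _ = _ := by rw [← hQP]; simp only [Matrix.mul_assoc]
  have hE : ∀ u w : Fin D → F, (u ᵥ* B) ⬝ᵥ u = 0 → (u ᵥ* B) ⬝ᵥ w = 0 → ∃ σ,
      ρ' σ = P * (eich B u w).map (algebraMap F _) * Q ∧
      ρ' σ⁻¹ = P * (eich B u (-w)).map (algebraMap F _) * Q := by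
    intro u w hu hw
    obtain ⟨a, ha, hau⟩ := eich_mem h2F B hBt hBd u w hu hw
    obtain ⟨σ, hσ⟩ := hF a ha
    rw [hau] at hσ
    refine ⟨σ, hσ, ?_⟩
    have h3 : eich B u w * eich B u (-w) = 1 := by
      have hwu : (w ᵥ* B) ⬝ᵥ u = 0 := by
        rw [← Matrix.dotProduct_mulVec, ← Matrix.vecMul_transpose, hBt, dotProduct_comm]
        exact hw
      unfold eich
      rw [Matrix.neg_vecMul, vecMulVec_neg, neg_vecMulVec, neg_dotProduct_neg]
      set N : Matrix (Fin D) (Fin D) F := vecMulVec u (w ᵥ* B) - vecMulVec w (u ᵥ* B) with hN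
      set q : F := (2 : F)⁻¹ * ((w ᵥ* B) ⬝ᵥ w) with hq
      set U : Matrix (Fin D) (Fin D) F := vecMulVec u (u ᵥ* B) with hU
      have hNN : N * N = -(2 * q) • U := by
        rw [hN, sub_mul, mul_sub, mul_sub, vecMulVec_mul_vecMulVec, vecMulVec_mul_vecMulVec,
          vecMulVec_mul_vecMulVec, vecMulVec_mul_vecMulVec, hwu, hu, hw, hq, hU]
        have h4 : (2 : F) * (2⁻¹ * ((w ᵥ* B) ⬝ᵥ w)) = (w ᵥ* B) ⬝ᵥ w := by
          rw [← mul_assoc, mul_inv_cancel₀ h2F, one_mul]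
        rw [h4, zero_smul, zero_smul, vecMulVec_zero, vecMulVec_zero, vecMulVec_smul]
        simp
      have hNU : N * U = 0 := by
        rw [hN, hU, sub_mul, vecMulVec_mul_vecMulVec, vecMulVec_mul_vecMulVec, hwu, hu, zero_smul,
          vecMulVec_zero, vecMulVec_zero, sub_zero]
      have hUN : U * N = 0 := by
        rw [hN, hU, mul_sub, vecMulVec_mul_vecMulVec, vecMulVec_mul_vecMulVec, hw, hu, zero_smul,
          zero_smul, vecMulVec_zero, sub_zero]
      have hUU : U * U = 0 := by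
        rw [hU, vecMulVec_mul_vecMulVec, hu, zero_smul, vecMulVec_zero]
      have h5 : -vecMulVec u (w ᵥ* B) - -vecMulVec w (u ᵥ* B) = -N := by
        rw [hN]
        abel
      rw [h5]
      calc (1 + N - q • U) * (1 + -N - q • U)
          = 1 - N * N - 2 • (q • U) + q • (U * N) - q • (N * U) + (q * q) • (U * U) := by
            simp only [add_mul, sub_mul, mul_add, mul_sub, mul_one, one_mul, smul_mul_assoc,
              mul_smul_comm, mul_neg]
            module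
        _ = 1 := by
            rw [hNN, hNU, hUN, hUU]
            module
    have h4 : ρ' σ * (P * (eich B u (-w)).map (algebraMap F _) * Q) = 1 := by
      rw [hσ, ← hmulPQ, ← Matrix.map_mul, h3, Matrix.map_one _ (map_zero _) (map_one _),
        Matrix.mul_one, hPQ]
    calc ρ' σ⁻¹ = ρ' σ⁻¹ * (ρ' σ * (P * (eich B u (-w)).map (algebraMap F _) * Q)) := by
          rw [h4, mul_one]
      _ = _ := by rw [← mul_assoc, ← map_mul, inv_mul_cancel, map_one, one_mul]
  have hso : ∀ W : Submodule (IsLocalRing.ResidueField A)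
      (Matrix (Fin D) (Fin D) (IsLocalRing.ResidueField A)),
      (∀ X ∈ W, ∀ Y ∈ W, X * Y - Y * X ∈ W) → (∀ γ, ∀ x ∈ W, ρ' γ * x * ρ' γ⁻¹ ∈ W) →
      ∀ Y ∈ W, (∀ l : IsLocalRing.ResidueField A, Y ≠ l • 1) → ∀ a b,
        vecMulVec a (b ᵥ* Bk) - vecMulVec b (a ᵥ* Bk) ∈ W.comap f := by
    intro W hbrW hcW Y hY hYs a b
    have hf : ∀ Z, Z ∈ W.comap f ↔ P * Z * Q ∈ W := fun _ => Iff.rfl
    refine so_mem (p := p) hp5 (by rw [Fintype.card_fin]; exact hd5) B hBt hBd hiso (W.comap f)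
      ?_ ?_ (X := Q * Y * P) ?_ ?_ a b
    · intro x hx y hy
      rw [hf] at hx hy ⊢
      rw [Matrix.mul_sub, Matrix.sub_mul, hmulPQ, hmulPQ]
      exact hbrW _ hx _ hy
    · intro u w hu hw Z hZ
      rw [hf] at hZ ⊢
      obtain ⟨σ, h3, h4⟩ := hE u w hu hw
      have h5 := hcW σ _ hZ
      rw [h3, h4] at h5
      rw [hmulPQ, hmulPQ]
      exact h5
    · rw [hf, hback]
      exact hY
    · intro l hl
      apply hYs l
      rw [← hback Y, hl, Matrix.mul_smul, Matrix.smul_mul, Matrix.mul_one, hPQ]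
  -- stable algebras which are not scalar are everything
  have halg : ∀ S : Subalgebra C (Matrix (Fin D) (Fin D) C),
      (∀ γ, ∀ x ∈ S, ρ γ * x * ρ γ⁻¹ ∈ S) → (∃ Y ∈ redS A ρ ρ' (Subalgebra.toSubmodule S),
        ∀ l : IsLocalRing.ResidueField A, Y ≠ l • 1) → S = ⊤ := by
    intro S hS hY
    obtain ⟨Y, hY, hYs⟩ := hY
    have h3 : Subalgebra.toSubmodule S = ⊤ := by
      refine alg_top hspan htr _ ?_
      have h4 := hso (redS A ρ ρ' (Subalgebra.toSubmodule S))
        (redS_bracket fun x hx y hy => Subalgebra.sub_mem S (Subalgebra.mul_mem S hx hy)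
          (Subalgebra.mul_mem S hy hx)) (redS_conj fun γ x hx => hS γ x hx) Y hY hYs
      have h5 := so_alg h2 (by rw [Fintype.card_fin]; omega) Bk hBkt hBkd
        ((redS A ρ ρ' (Subalgebra.toSubmodule S)).comap f) h4 (by
        rintro x ⟨r, h6, h7⟩ y ⟨r', h8, h9⟩
        have h6' : nfl_phi A ρ r ∈ S := h6
        have h8' : nfl_phi A ρ r' ∈ S := h8
        refine ⟨r * r', ?_, ?_⟩
        · rw [map_mul]
          exact Subalgebra.mul_mem S h6' h8'
        · rw [map_mul, h7, h9]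
          exact (hmulPQ x y).symm)
      rw [eq_top_iff]
      intro X _
      have h6 : Q * X * P ∈ (redS A ρ ρ' (Subalgebra.toSubmodule S)).comap f := by
        rw [h5]
        exact Submodule.mem_top
      have h7 : P * (Q * X * P) * Q ∈ redS A ρ ρ' (Subalgebra.toSubmodule S) := h6
      rwa [hback] at h7
    rw [← Algebra.toSubmodule_eq_top]
    exact h3
  obtain ⟨Y, hY, hY0⟩ := redS_ne hspan htr hne0
  have hYs := hnsk Y hY0 (redS_trace htr htr0 Y hY)
  have hN := hso (redS A ρ ρ' L0) (redS_bracket hbr0) (redS_conj hconj0) Y hY hYs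
  suffices h : ∃ v φ : Fin D → C, v ≠ 0 ∧ φ ≠ 0 ∧ φ ⬝ᵥ v = 0 ∧ vecMulVec v φ ∈ L0 by
    obtain ⟨v, φ, hv, hφ, hφv, hvφ⟩ := h
    -- the conjugates of the rank one element generate all matrices
    set 𝒜 := Algebra.adjoin C (Set.range fun γ => ρ γ * vecMulVec v φ * ρ γ⁻¹) with h𝒜
    have hnorm : ∀ γ, ∀ x ∈ 𝒜, ρ γ * x * ρ γ⁻¹ ∈ 𝒜 := by
      intro γ x hx
      rw [h𝒜] at hx ⊢
      induction hx using Algebra.adjoin_induction with
      | mem x hx =>
        obtain ⟨δ, rfl⟩ := hx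
        refine Algebra.subset_adjoin ⟨γ * δ, ?_⟩
        show ρ (γ * δ) * vecMulVec v φ * ρ (γ * δ)⁻¹ = ρ γ * (ρ δ * vecMulVec v φ * ρ δ⁻¹) * ρ γ⁻¹
        rw [_root_.mul_inv_rev, map_mul, map_mul]
        simp only [mul_assoc]
      | algebraMap c =>
        rw [Algebra.algebraMap_eq_smul_one, mul_smul_comm, mul_one, smul_mul_assoc, hinv']
        exact Subalgebra.smul_mem _ (Subalgebra.one_mem _) _
      | add x y _ _ hx hy =>
        rw [mul_add, add_mul]
        exact Subalgebra.add_mem _ hx hy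
      | mul x y _ _ hx hy =>
        have h1 : ρ γ * (x * y) * ρ γ⁻¹ = (ρ γ * x * ρ γ⁻¹) * (ρ γ * y * ρ γ⁻¹) := by
          calc ρ γ * (x * y) * ρ γ⁻¹ = ρ γ * x * 1 * y * ρ γ⁻¹ := by
                rw [mul_one]; simp only [mul_assoc]
            _ = ρ γ * x * (ρ γ⁻¹ * ρ γ) * y * ρ γ⁻¹ := by rw [hinv]
            _ = _ := by simp only [mul_assoc]
        rw [h1]
        exact Subalgebra.mul_mem _ hx hy
    have hnmem : vecMulVec v φ ∈ 𝒜 := by
      refine Algebra.subset_adjoin ⟨1, ?_⟩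
      show ρ 1 * vecMulVec v φ * ρ 1⁻¹ = _
      rw [inv_one, map_one, one_mul, mul_one]
    have hnne : vecMulVec v φ ≠ 0 := by
      intro h
      obtain ⟨i, hi⟩ := Function.ne_iff.1 hv
      obtain ⟨j, hj⟩ := Function.ne_iff.1 hφ
      exact mul_ne_zero hi hj (congrFun (congrFun h i) j)
    have hadj : 𝒜 = ⊤ := by
      refine halg 𝒜 hnorm ?_
      obtain ⟨c, x, hc, hx1, hx2⟩ := exists_scale hspan htr hnne
      refine ⟨nfl_psi A ρ' x, ⟨x, ?_, rfl⟩, hnsk _ hx2 ?_⟩
      · rw [hx1]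
        exact Subalgebra.smul_mem _ hnmem _
      · obtain ⟨t, ht1, ht2⟩ := nfl_trace A htr x
        rw [hx1, Matrix.trace_smul, Matrix.trace_vecMulVec, dotProduct_comm, hφv, smul_zero] at ht1
        have h4 : t = 0 := Subtype.ext ht1
        rw [← ht2, h4, map_zero]
    have hfin := dich hN1 hv hφ hφv hadj L0 hbr0 hconj0 hvφ z hz
    obtain ⟨x, hx, hxz⟩ := hfin
    refine ⟨x, hx, (D : C)⁻¹ * x.trace, ?_⟩
    rw [← hxz, hT, sub_add_cancel]
  by_contra hno
  apply hN1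
  -- the generic elements
  obtain ⟨ι, _, _, s, R, R', t, hRR', hR'R, hcard, hss, ht, hu, hfr⟩ :=
    so_frame (p := p) hp5 (by rw [Fintype.card_fin]; exact hd5) Bk hBkt hBkd
  obtain ⟨hdiag, hroot⟩ := hfr ((redS A ρ ρ' L0).comap f) hN
  have hPR : (P * R) * (R' * Q) = 1 := by
    calc (P * R) * (R' * Q) = P * (R * R') * Q := by simp only [Matrix.mul_assoc]
      _ = 1 := by rw [hRR', Matrix.mul_one, hPQ]
  have hRP : (R' * Q) * (P * R) = 1 := by
    calc (R' * Q) * (P * R) = R' * (Q * P) * R := by simp only [Matrix.mul_assoc]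
      _ = 1 := by rw [hQP, Matrix.mul_one, hR'R]
  have hassoc : ∀ M : Matrix ι ι (IsLocalRing.ResidueField A),
      (P * R) * M * (R' * Q) = P * (R * M * R') * Q := by
    intro M
    simp only [Matrix.mul_assoc]
  have hodd : ∀ x ∈ L0, ∀ m : ℕ, Odd m → (x ^ m).trace = 0 := by
    intro x hx m hm
    refine odd_traces (p := p) hspan htr L0 (Y := (P * R) * Matrix.diagonal t * (R' * Q)) ?_ m ?_ x
      hx
    · rw [hassoc]
      exact hdiag
    · intro rh hh1 hh2
      refine symm_spec hspan htr hint L0 hbr0 htr0 hno hPR hRP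
        (by rw [hcard, Fintype.card_fin]) s hss t ht hu ?_ hh1 hh2 m hm
      intro x y hxy hxy'
      rw [hassoc]
      exact hroot x y hxy hxy'
  have htop : Algebra.adjoin C (L0 : Set (Matrix (Fin D) (Fin D) C)) = ⊤ := by
    refine halg _ ?_ ?_
    · intro γ x hx
      induction hx using Algebra.adjoin_induction with
      | mem x hx => exact Algebra.subset_adjoin (hconj0 γ x hx)
      | algebraMap c =>
        rw [Algebra.algebraMap_eq_smul_one, mul_smul_comm, mul_one, smul_mul_assoc, hinv']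
        exact Subalgebra.smul_mem _ (Subalgebra.one_mem _) _
      | add x y _ _ hx hy =>
        rw [mul_add, add_mul]
        exact Subalgebra.add_mem _ hx hy
      | mul x y _ _ hx hy =>
        have h1 : ρ γ * (x * y) * ρ γ⁻¹ = (ρ γ * x * ρ γ⁻¹) * (ρ γ * y * ρ γ⁻¹) := by
          calc ρ γ * (x * y) * ρ γ⁻¹ = ρ γ * x * 1 * y * ρ γ⁻¹ := by
                rw [mul_one]; simp only [mul_assoc]
            _ = ρ γ * x * (ρ γ⁻¹ * ρ γ) * y * ρ γ⁻¹ := by rw [hinv]
            _ = _ := by simp only [mul_assoc]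
        rw [h1]
        exact Subalgebra.mul_mem _ hx hy
    · obtain ⟨r, h3, h4⟩ := hY
      exact ⟨Y, ⟨r, Algebra.subset_adjoin h3, h4⟩, hYs⟩
  obtain ⟨J, hJd, hJ⟩ := exists_form L0 hbr0 htop hodd
  have hJ' : J⁻¹ * J = 1 := Matrix.nonsing_inv_mul _ hJd
  have hJ'' : J * J⁻¹ = 1 := Matrix.mul_nonsing_inv _ hJd
  -- the form is unique up to a scalar
  have huniq : ∀ J₁ : Matrix (Fin D) (Fin D) C, (∀ x ∈ L0, xᵀ * J₁ = -(J₁ * x)) →
      ∃ c : C, J₁ = c • J := by
    intro J₁ hJ₁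
    have hcomm : ∀ x ∈ Algebra.adjoin C (L0 : Set (Matrix (Fin D) (Fin D) C)),
        (J⁻¹ * J₁) * x = x * (J⁻¹ * J₁) := by
      intro x hx
      induction hx using Algebra.adjoin_induction with
      | mem x hx =>
        have h3 := hJ x hx
        have h4 := hJ₁ x hx
        have h5 : x * J⁻¹ = -(J⁻¹ * xᵀ) := by
          calc x * J⁻¹ = J⁻¹ * (J * x) * J⁻¹ := by rw [← mul_assoc, hJ', one_mul]
            _ = -(J⁻¹ * (xᵀ * J) * J⁻¹) := by rw [h3]; noncomm_ring
            _ = -(J⁻¹ * xᵀ * (J * J⁻¹)) := by simp only [mul_assoc]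
            _ = _ := by rw [hJ'', mul_one]
        calc (J⁻¹ * J₁) * x = J⁻¹ * (J₁ * x) := by rw [mul_assoc]
          _ = -(J⁻¹ * xᵀ) * J₁ := by
              have : J₁ * x = -(xᵀ * J₁) := by rw [h4, neg_neg]
              rw [this]
              noncomm_ring
          _ = x * (J⁻¹ * J₁) := by rw [← h5, mul_assoc]
      | algebraMap c =>
        rw [Algebra.algebraMap_eq_smul_one, mul_smul_comm, smul_mul_assoc, mul_one, one_mul]
      | add x y _ _ hx hy => rw [mul_add, add_mul, hx, hy]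
      | mul x y _ _ hx hy => rw [← mul_assoc, hx, mul_assoc, hy, mul_assoc]
    have hcen : ∀ x : Matrix (Fin D) (Fin D) C, (J⁻¹ * J₁) * x = x * (J⁻¹ * J₁) := by
      intro x
      exact hcomm x (by rw [htop]; exact Algebra.mem_top)
    have hsc : ∃ c : C, J⁻¹ * J₁ = c • 1 := by
      have h3 : J⁻¹ * J₁ ∈ Set.center (Matrix (Fin D) (Fin D) C) := by
        rw [Semigroup.mem_center_iff]
        intro x
        exact (hcen x).symm
      rw [Matrix.center_eq_range] at h3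
      obtain ⟨c, hc⟩ := h3
      exact ⟨c, by rw [← hc]; ext i j; simp [Matrix.scalar_apply, Matrix.one_apply,
        Matrix.diagonal_apply]⟩
    obtain ⟨c, hc⟩ := hsc
    refine ⟨c, ?_⟩
    calc J₁ = J * (J⁻¹ * J₁) := by rw [← mul_assoc, hJ'', one_mul]
      _ = c • J := by rw [hc, mul_smul_comm, mul_one]
  have hform : ∀ γ, ∃ c : C, (ρ γ)ᵀ * J * ρ γ = c • J := by
    intro γ
    apply huniq
    intro x hx
    have h3 := hJ _ (hconj0 γ x hx)
    have h4 : (ρ γ)ᵀ * ((ρ γ * x * ρ γ⁻¹)ᵀ * J) * ρ γ = xᵀ * ((ρ γ)ᵀ * J * ρ γ) := by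
      have h5 : (ρ γ)ᵀ * (ρ γ * x * ρ γ⁻¹)ᵀ = xᵀ * (ρ γ)ᵀ := by
        rw [← Matrix.transpose_mul, ← Matrix.transpose_mul, mul_assoc, hinv, mul_one]
      calc (ρ γ)ᵀ * ((ρ γ * x * ρ γ⁻¹)ᵀ * J) * ρ γ
          = ((ρ γ)ᵀ * (ρ γ * x * ρ γ⁻¹)ᵀ) * J * ρ γ := by simp only [mul_assoc]
        _ = _ := by rw [h5]; simp only [mul_assoc]
    rw [← h4, h3]
    calc (ρ γ)ᵀ * -(J * (ρ γ * x * ρ γ⁻¹)) * ρ γ
        = -((ρ γ)ᵀ * J * ρ γ * x * (ρ γ⁻¹ * ρ γ)) := by noncomm_ring
      _ = _ := by rw [hinv, mul_one]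
  choose μ hμ using hform
  refine ⟨J, μ, ?_, hμ⟩
  rintro rfl
  have h3 : Nonempty (Fin D) := ⟨⟨0, by omega⟩⟩
  rw [Matrix.det_zero] at hJd
  exact not_isUnit_zero hJd

end

end Pool.Agent.RO
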